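import Pool.Agent.TH930.HW.Main
import Pool.Agent.TH930.EBQ.Type

/-! Chernoff bounds for the number of odd iterates, for times up to `(1+τ) log_2 X`. -/

set_option autoImplicit false

namespace Pool.Agent.TH930.HW

open Finset Pool.Agent.TH930.EBQ

/-- short words -/
lemma small_count {k : ℤ} (hk : Odd k) {K W : ℕ} (hKW : K ≤ W + 3) (S : Finset (List Bool)) (u : ℤ)
    (B : Finset ℤ) (hB : ∀ x ∈ B, |x - u| ≤ 2 ^ W ∧ wd k K x ∈ S) :
    (B.card : ℝ) ≤ 32 * (2 ^ W / 2 ^ K) * S.card := by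
  classical
  set N : ℤ := 2 ^ K with hN
  have hN0 : 0 < N := by positivity
  set M : ℕ := 2 ^ (W + 1) / 2 ^ K + 1 with hM
  have h1 : B.card ≤ M * (B.image (fun x => wd k K x)).card := by
    apply Finset.card_le_mul_card_image
    intro a _
    have h2 : (B.filter (fun x => wd k K x = a)).card ≤ (Icc (0 : ℤ) ((2 ^ (W + 1) / 2 ^ K : ℕ) : ℤ)).card := by
      apply card_le_card_of_injOn (fun x => (x - (u - 2 ^ W)) / N)
      · intro x hx
        rw [mem_coe, mem_filter] at hx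
        have h3 := abs_le.1 (hB x hx.1).1
        rw [mem_coe, mem_Icc]
        simp only
        constructor
        · apply Int.ediv_nonneg _ hN0.le
          linarith [h3.1]
        · have h4 : x - (u - 2 ^ W) ≤ 2 ^ (W + 1) := by
            rw [pow_succ]; linarith [h3.2]
          have h5 : (x - (u - 2 ^ W)) / N ≤ 2 ^ (W + 1) / N := Int.ediv_le_ediv hN0 h4
          refine h5.trans (le_of_eq ?_)
          push_cast
          rfl
      · intro x hx y hy hxy
        rw [mem_coe, mem_filter] at hx hy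
        simp only at hxy
        have h3 : N ∣ x - y := wd_inj hk (hx.2.trans hy.2.symm)
        have h4 := Int.emod_add_mul_ediv (x - (u - 2 ^ W)) N
        have h5 := Int.emod_add_mul_ediv (y - (u - 2 ^ W)) N
        have h6 : (x - (u - 2 ^ W)) % N = (y - (u - 2 ^ W)) % N := by
          apply Int.ModEq.symm
          rw [Int.modEq_iff_dvd]
          have : x - (u - 2 ^ W) - (y - (u - 2 ^ W)) = x - y := by ring
          rw [this]; exact h3
        rw [h6, hxy] at h4
        linarith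
    refine h2.trans ?_
    rw [Int.card_Icc, hM]
    generalize 2 ^ (W + 1) / 2 ^ K = t
    omega
  have h2 : (B.image (fun x => wd k K x)).card ≤ S.card := by
    apply card_le_card
    intro a ha
    rw [mem_image] at ha
    obtain ⟨x, hx, rfl⟩ := ha
    exact (hB x hx).2
  have h3 : (B.card : ℝ) ≤ M * S.card := by
    exact_mod_cast h1.trans (Nat.mul_le_mul_left M h2)
  have h4 : (M : ℝ) ≤ 32 * (2 ^ W / 2 ^ K) := by
    rw [hM]
    push_cast
    have h5 : (((2 ^ (W + 1) / 2 ^ K : ℕ)) : ℝ) ≤ 2 ^ (W + 1) / 2 ^ K := by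
      have := Nat.cast_div_le (α := ℝ) (m := 2 ^ (W + 1)) (n := 2 ^ K)
      push_cast at this
      exact this
    have h6 : (1 : ℝ) ≤ 8 * (2 ^ W / 2 ^ K) := by
      rw [mul_div_assoc', le_div_iff₀ (by positivity), one_mul]
      calc (2 : ℝ) ^ K ≤ 2 ^ (W + 3) := pow_le_pow_right₀ (by norm_num) hKW
        _ = 8 * 2 ^ W := by rw [pow_add]; ring
    have h7 : (2 : ℝ) ^ (W + 1) / 2 ^ K = 2 * (2 ^ W / 2 ^ K) := by rw [pow_succ]; ring
    have h8 : (((2 : ℕ) ^ (W + 1) / 2 ^ K : ℕ) : ℝ) ≤ 2 * (2 ^ W / 2 ^ K) := by rw [← h7]; exact h5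
    have h9 : (0 : ℝ) < 2 ^ W / 2 ^ K := by positivity
    push_cast at h8 ⊢
    linarith
  exact h3.trans (mul_le_mul_of_nonneg_right h4 (Nat.cast_nonneg _))

/-- type counts, for all times up to `(1+τ)W` -/
theorem type_sharp {δ τ : ℝ} (hδ0 : 0 < δ) (hδ1 : δ ≤ 1 / 2) (hτ0 : 0 < τ) (hτ1 : τ ≤ δ / 100000) :
    ∃ C : ℝ, 0 < C ∧ ∀ k : ℤ, Odd k → ∀ W : ℕ, |(k : ℝ)| ≤ Real.exp (τ / 4 * W) →
      ∀ K : ℕ, (K : ℝ) ≤ (1 + τ) * W → ∀ p : ℝ, δ ≤ p → p ≤ 1 - δ → ∀ o ≤ K,
      ∀ (u : ℤ) (B : Finset ℤ), (∀ x ∈ B, |x - u| ≤ 2 ^ W ∧ ones (wd k K x) = o) →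
      (B.card : ℝ) * (p ^ o * (1 - p) ^ (K - o)) ≤
        C * Real.exp (Real.exp (-(δ / (3000 * τ))) / 100 * W) * (2 ^ W / 2 ^ K) := by
  classical
  have hδτ : (100000 : ℝ) ≤ δ / τ := by
    rw [le_div_iff₀ hτ0]; linarith
  have hτi : (200000 : ℝ) ≤ 1 / τ := by
    have h1 : δ / τ ≤ (1 / 2) / τ := div_le_div_of_nonneg_right hδ1 hτ0.le
    have h2 : (1 / 2) / τ = (1 / τ) / 2 := by ring
    linarith
  have hτs : τ ≤ 1 / 200000 := by linarith
  set n : ℕ := ⌊1 / (16 * τ)⌋₊ with hn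
  have e16 : 1 / (16 * τ) = (1 / τ) / 16 := by field_simp
  have hn1 : (n : ℝ) ≤ 1 / (16 * τ) := Nat.floor_le (by positivity)
  have hn2 : 1 / (16 * τ) < n + 1 := Nat.lt_floor_add_one _
  rw [e16] at hn1 hn2
  have hn0 : (0 : ℝ) < n := by linarith
  have hn0' : 0 < n := by exact_mod_cast hn0
  obtain ⟨C, hC, h⟩ := main_gen hδ0 hδ1 (n := n) (by
    have h1 : 2 / δ = 2 * (1 / δ) := by ring
    have h2 : 1 / δ * 100000 ≤ 1 / τ := by
      rw [div_mul_eq_mul_div, div_le_div_iff₀ hδ0 hτ0]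
      linarith
    have h3 : 2 ≤ 1 / δ := by rw [le_div_iff₀ hδ0]; linarith
    rw [h1]
    linarith)
  set z : ℝ := Real.exp (-(δ * n / 128)) with hz
  have hz0 : 0 < z := Real.exp_pos _
  set E : ℝ := Real.exp (-(δ / (3000 * τ))) with hE
  have hE0 : 0 < E := Real.exp_pos _
  have hl2 := Real.log_two_lt_d9
  have hl2' := Real.log_two_gt_d9
  have hzE : 201 * z ≤ E := by
    have h1 : z ≤ Real.exp (-(δ / τ / 2048 - 1 / 256)) := by
      rw [hz]
      apply Real.exp_le_exp.2
      have h2 : δ * ((1 / τ) / 16 - 1) ≤ δ * n := mul_le_mul_of_nonneg_left (by linarith) hδ0.le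
      have h3 : δ * ((1 / τ) / 16 - 1) = δ / τ / 16 - δ := by ring
      linarith
    have h2 : Real.exp (-(δ / τ / 2048 - 1 / 256)) =
        E * Real.exp (-(δ / τ * (1 / 2048 - 1 / 3000) - 1 / 256)) := by
      rw [hE, ← Real.exp_add]; congr 1; field_simp; ring
    have h3 : Real.exp (-(δ / τ * (1 / 2048 - 1 / 3000) - 1 / 256)) ≤ 1 / 201 := by
      rw [Real.exp_neg, ← one_div]
      apply one_div_le_one_div_of_le (by norm_num)
      have h4 : (8 : ℝ) * Real.log 2 ≤ δ / τ * (1 / 2048 - 1 / 3000) - 1 / 256 := by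
        have h5 : (100000 : ℝ) * (1 / 2048 - 1 / 3000) ≤ δ / τ * (1 / 2048 - 1 / 3000) :=
          mul_le_mul_of_nonneg_right hδτ (by norm_num)
        have h6 : (6 : ℝ) ≤ 100000 * (1 / 2048 - 1 / 3000) - 1 / 256 := by norm_num
        linarith
      refine le_trans ?_ (Real.exp_le_exp.2 h4)
      have h7 : Real.exp (8 * Real.log 2) = 2 ^ 8 := by
        have := pow2_exp 8
        rw [this]; push_cast; rfl
      rw [h7]; norm_num
    calc 201 * z ≤ 201 * (E * (1 / 201)) := by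
          apply mul_le_mul_of_nonneg_left _ (by norm_num)
          refine h1.trans ?_
          rw [h2]
          exact mul_le_mul_of_nonneg_left h3 hE0.le
      _ = E := by ring
  refine ⟨8 * C + 32, by positivity, ?_⟩
  intro k hk W hkW K hK p hp1 hp2 o ho u B hB
  have hWn : (0 : ℝ) ≤ W := Nat.cast_nonneg W
  have hp : 0 < p := by linarith
  have hq : 0 < 1 - p := by linarith
  have hexp1 : 1 ≤ Real.exp (E / 100 * W) := Real.one_le_exp (by positivity)
  have hWK : (0 : ℝ) < 2 ^ W / 2 ^ K := by positivity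
  have hP0 : 0 < p ^ o * (1 - p) ^ (K - o) := by positivity
  rcases Nat.lt_or_ge (W + 3) K with hbig | hsm
  swap
  · have h1 := small_count hk hsm (V K o) u B (fun x hx =>
      ⟨(hB x hx).1, by rw [mem_V, wd_length]; exact ⟨rfl, (hB x hx).2⟩⟩)
    have h2 := card_V_le hp hq (by ring) K o
    calc (B.card : ℝ) * (p ^ o * (1 - p) ^ (K - o))
        ≤ (32 * (2 ^ W / 2 ^ K) * (V K o).card) * (p ^ o * (1 - p) ^ (K - o)) :=
          mul_le_mul_of_nonneg_right h1 hP0.le
      _ = 32 * (2 ^ W / 2 ^ K) * ((V K o).card * (p ^ o * (1 - p) ^ (K - o))) := by ring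
      _ ≤ 32 * (2 ^ W / 2 ^ K) * 1 := mul_le_mul_of_nonneg_left h2 (by positivity)
      _ = 32 * 1 * (2 ^ W / 2 ^ K) := by ring
      _ ≤ _ := by
          apply mul_le_mul_of_nonneg_right _ hWK.le
          apply mul_le_mul _ hexp1 zero_le_one (by positivity)
          linarith
  · have hKW : ((K : ℝ) - W) ≤ τ * W := by linarith
    have hKW3 : (3 : ℝ) < (K : ℝ) - W := by
      have : (W : ℝ) + 3 < K := by exact_mod_cast hbig
      linarith
    have hτW : 3 < τ * W := by linarith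
    set ρ : ℕ := K - W - 3 with hρ
    have hρK : K = ρ + (W + 3) := by omega
    have e8 : (8 : ℝ) * 2 ^ ρ * 2 ^ W = 2 ^ K := by
      rw [hρK, pow_add, pow_add]; ring
    have e8z : (2 : ℤ) ^ W * (8 * 2 ^ ρ) = 2 ^ K := by
      rw [hρK, pow_add, pow_add]; ring
    have hρR : (ρ : ℝ) ≤ τ * W := by
      have : (K : ℝ) = ρ + (W + 3) := by exact_mod_cast hρK
      linarith
    have hmain := h p hp1 hp2 K k hk ρ (by
      have h1 : |(k : ℝ)| ≤ (2 : ℝ) ^ (τ / 2 * W) := by
        refine hkW.trans ?_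
        rw [Real.rpow_def_of_pos (by norm_num)]
        apply Real.exp_le_exp.2
        nlinarith
      have h2 : (2 : ℝ) ^ ρ ≤ (2 : ℝ) ^ (τ * W) := by
        rw [← Real.rpow_natCast]
        exact Real.rpow_le_rpow_of_exponent_le (by norm_num) hρR
      have h3 : (2 : ℝ) ^ (τ / 2 * W) * (2 : ℝ) ^ (τ * W) = (2 : ℝ) ^ (3 / 2 * (τ * W)) := by
        rw [← Real.rpow_add (by norm_num)]; congr 1; ring
      have h4 : (3 / 2 * (τ * W) : ℝ) ≤ ((K / (8 * n) : ℕ) : ℝ) := by
        have h5 : K < K / (8 * n) * (8 * n) + 8 * n := by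
          have := Nat.lt_mul_div_succ K (b := 8 * n) (by omega)
          linarith
        have h6 : (K : ℝ) < ((K / (8 * n) : ℕ) : ℝ) * (8 * n) + 8 * n := by exact_mod_cast h5
        have h7 : 8 * (n : ℝ) * τ ≤ 1 / 2 := by
          have : (n : ℝ) * τ ≤ 1 / τ / 16 * τ := mul_le_mul_of_nonneg_right hn1 hτ0.le
          have e : 1 / τ / 16 * τ = 1 / 16 := by field_simp
          linarith
        have h8 : (2 * (τ * W) - 1) * (8 * n) ≤ ((K / (8 * n) : ℕ) : ℝ) * (8 * n) := by
          have h9 : (2 * (τ * W)) * (8 * n) ≤ W := by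
            calc (2 * (τ * W)) * (8 * n) = 2 * W * (8 * n * τ) := by ring
              _ ≤ 2 * W * (1 / 2) := mul_le_mul_of_nonneg_left h7 (by positivity)
              _ = W := by ring
          linarith
        have h9 := le_of_mul_le_mul_right h8 (by positivity)
        linarith
      calc |(k : ℝ)| * 2 ^ ρ ≤ (2 : ℝ) ^ (τ / 2 * W) * (2 : ℝ) ^ (τ * W) :=
            mul_le_mul h1 h2 (by positivity) (Real.rpow_nonneg (by norm_num) _)
        _ = (2 : ℝ) ^ (3 / 2 * (τ * W)) := h3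
        _ ≤ (2 : ℝ) ^ (((K / (8 * n) : ℕ) : ℝ)) :=
            Real.rpow_le_rpow_of_exponent_le (by norm_num) h4
        _ = _ := Real.rpow_natCast _ _) o ho u B (by
      intro x hx
      refine ⟨?_, (hB x hx).2⟩
      rw [← e8z]
      exact mul_le_mul_of_nonneg_right (hB x hx).1 (by positivity))
    refine hmain.trans ?_
    have h1 : Real.exp (2 * z * K) ≤ Real.exp (E / 100 * W) := by
      apply Real.exp_le_exp.2
      have h2 : (K : ℝ) ≤ 201 / 200 * W := by
        have : τ * (W : ℝ) ≤ 1 / 200 * W := mul_le_mul_of_nonneg_right (by linarith) hWn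
        linarith
      have h3 : 2 * z * K ≤ 2 * z * (201 / 200 * W) := mul_le_mul_of_nonneg_left h2 (by positivity)
      have h4 : 201 * z * W ≤ E * W := mul_le_mul_of_nonneg_right hzE hWn
      linarith
    have h2 : C * Real.exp (2 * z * K) / 2 ^ ρ = 8 * C * Real.exp (2 * z * K) * (2 ^ W / 2 ^ K) := by
      rw [← e8]
      field_simp
    rw [h2]
    apply mul_le_mul_of_nonneg_right _ hWK.le
    calc 8 * C * Real.exp (2 * z * K) ≤ 8 * C * Real.exp (E / 100 * W) :=
          mul_le_mul_of_nonneg_left h1 (by positivity)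
      _ ≤ _ := by
          apply mul_le_mul_of_nonneg_right _ (Real.exp_pos _).le
          linarith

lemma P_exp' {p : ℝ} (hp : 0 < p) (hp1 : p < 1) {n o : ℕ} (ho : o ≤ n) :
    p ^ o * (1 - p) ^ (n - o) =
      Real.exp (-(n * Real.binEntropy p) + (o - p * n) * (Real.log p - Real.log (1 - p))) := by
  have h2 : 0 < 1 - p := by linarith
  have e1 : p ^ o * (1 - p) ^ (n - o) =
      Real.exp (o * Real.log p + (n - o : ℕ) * Real.log (1 - p)) := by
    rw [Real.exp_add, ← Real.log_pow, ← Real.log_pow, Real.exp_log (by positivity),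
      Real.exp_log (by positivity)]
  rw [e1]
  congr 1
  rw [Nat.cast_sub ho]
  unfold Real.binEntropy
  rw [Real.log_inv, Real.log_inv]
  ring

/-- THE CHERNOFF BOUND FOR THE NUMBER OF ODD ITERATES, for all times up to `(1+τ)W` -/
theorem chern {δ τ : ℝ} (hδ0 : 0 < δ) (hδ1 : δ ≤ 1 / 2) (hτ0 : 0 < τ) (hτ1 : τ ≤ δ / 100000) :
    ∃ C : ℝ, 0 < C ∧ ∀ k : ℤ, Odd k → ∀ W : ℕ, |(k : ℝ)| ≤ Real.exp (τ / 4 * W) →
      ∀ K : ℕ, (K : ℝ) ≤ (1 + τ) * W → ∀ p : ℝ, δ ≤ p → p ≤ 1 - δ → ∀ s : ℝ,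
      ∀ (u : ℤ) (B : Finset ℤ), (∀ x ∈ B, |x - u| ≤ 2 ^ W ∧
        -s ≤ (ones (wd k K x) - p * K) * (Real.log p - Real.log (1 - p))) →
      (B.card : ℝ) ≤ C * Real.exp s * Real.exp (W * Real.log 2 - K * (Real.log 2 - Real.binEntropy p) +
        Real.exp (-(δ / (3000 * τ))) / 50 * W) := by
  classical
  obtain ⟨C, hC, h⟩ := type_sharp hδ0 hδ1 hτ0 hτ1
  set E : ℝ := Real.exp (-(δ / (3000 * τ))) with hE
  have hE0 : 0 < E := Real.exp_pos _
  obtain ⟨C2, hC2, hpoly⟩ := poly_le_exp 1 (a := E / 100) (by positivity)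
  refine ⟨2 * C * C2, by positivity, ?_⟩
  intro k hk W hkW K hK p hp1 hp2 s u B hB
  have hp : 0 < p := by linarith
  have hp3 : p < 1 := by linarith
  have hWn : (0 : ℝ) ≤ W := Nat.cast_nonneg W
  have hτs : τ ≤ 1 := by linarith
  have hcard : (B.card : ℝ) = ∑ o ∈ range (K + 1), ((B.filter (fun x => ones (wd k K x) = o)).card : ℝ) := by
    have h1 := card_eq_sum_card_fiberwise (f := fun x => ones (wd k K x)) (s := B)
      (t := range (K + 1)) (by
      intro x _
      rw [coe_range, Set.mem_Iio]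
      have := ones_le_length (wd k K x)
      rw [wd_length] at this
      exact Nat.lt_succ_of_le this)
    exact_mod_cast h1
  set D : ℝ := C * Real.exp (E / 100 * W) * (2 ^ W / 2 ^ K) * Real.exp (K * Real.binEntropy p + s) with hD
  have hD0 : 0 < D := by positivity
  have hone : ∀ o ∈ range (K + 1), ((B.filter (fun x => ones (wd k K x) = o)).card : ℝ) ≤ D := by
    intro o ho
    rw [mem_range, Nat.lt_succ_iff] at ho
    by_cases hne : (B.filter (fun x => ones (wd k K x) = o)) = ∅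
    · rw [hne, card_empty, Nat.cast_zero]; exact hD0.le
    obtain ⟨x0, hx0⟩ := nonempty_iff_ne_empty.2 hne
    rw [mem_filter] at hx0
    have hdev := (hB x0 hx0.1).2
    rw [hx0.2] at hdev
    have h1 := h k hk W hkW K hK p hp1 hp2 o ho u (B.filter (fun x => ones (wd k K x) = o)) (by
      intro x hx
      rw [mem_filter] at hx
      exact ⟨(hB x hx.1).1, hx.2⟩)
    rw [P_exp' hp hp3 ho] at h1
    have h2 : Real.exp (-(K * Real.binEntropy p) - s) ≤ Real.exp (-(K * Real.binEntropy p) +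
        (o - p * K) * (Real.log p - Real.log (1 - p))) := by
      apply Real.exp_le_exp.2
      linarith
    have h3 := (mul_le_mul_of_nonneg_left h2 (Nat.cast_nonneg _)).trans h1
    have h4 : Real.exp (-(K * Real.binEntropy p) - s) * Real.exp (K * Real.binEntropy p + s) = 1 := by
      rw [← Real.exp_add]
      have : -(K * Real.binEntropy p) - s + (K * Real.binEntropy p + s) = 0 := by ring
      rw [this, Real.exp_zero]
    calc ((B.filter (fun x => ones (wd k K x) = o)).card : ℝ)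
        = ((B.filter (fun x => ones (wd k K x) = o)).card : ℝ) *
          Real.exp (-(K * Real.binEntropy p) - s) * Real.exp (K * Real.binEntropy p + s) := by
          rw [mul_assoc, h4, mul_one]
      _ ≤ D := mul_le_mul_of_nonneg_right h3 (Real.exp_pos _).le
  rw [hcard]
  refine (sum_le_sum hone).trans ?_
  rw [sum_const, card_range, nsmul_eq_mul]
  have h1 : ((K + 1 : ℕ) : ℝ) ≤ 2 * (C2 * Real.exp (E / 100 * W)) := by
    have h2 := hpoly W
    rw [pow_one] at h2
    have h3 : (K : ℝ) ≤ 2 * W := by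
      have : τ * (W : ℝ) ≤ 1 * W := mul_le_mul_of_nonneg_right hτs hWn
      linarith
    push_cast
    linarith
  have e1 : (2 : ℝ) ^ W / 2 ^ K = Real.exp (W * Real.log 2 - K * Real.log 2) := by
    rw [Real.exp_sub, ← pow2_exp, ← pow2_exp]
  calc ((K + 1 : ℕ) : ℝ) * D ≤ 2 * (C2 * Real.exp (E / 100 * W)) * D :=
        mul_le_mul_of_nonneg_right h1 hD0.le
    _ = 2 * C * C2 * (Real.exp (E / 100 * W) * Real.exp (E / 100 * W) *
        Real.exp (W * Real.log 2 - K * Real.log 2) * Real.exp (K * Real.binEntropy p + s)) := by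
        rw [hD, e1]; ring
    _ = 2 * C * C2 * Real.exp s * Real.exp (W * Real.log 2 - K * (Real.log 2 - Real.binEntropy p) +
        E / 50 * W) := by
        rw [← Real.exp_add, ← Real.exp_add, ← Real.exp_add, mul_assoc (2 * C * C2), ← Real.exp_add]
        congr 2
        ring

end Pool.Agent.TH930.HW
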