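import Pool.Agent.TH930.HW.Ind

/-! The number of integers of an interval with a given number of odd iterates. -/

set_option autoImplicit false

namespace Pool.Agent.TH930.HW

open Finset Pool.Agent.TH930.EBQ

/-- the words with `o` ones, at least `t` of them among the first `K1` letters -/
def Sg (K1 N2 o t : ℕ) : Finset (List Bool) :=
  (words (K1 + N2)).filter (fun v => ones v = o ∧ t ≤ ones (v.take K1))

lemma sum_Sg {α : Type*} [AddCommMonoid α] {K1 N2 o t : ℕ} (ht : t ≤ o) (f : List Bool → α) :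
    ∑ v ∈ Sg K1 N2 o t, f v =
      ∑ r ∈ range (o - t + 1), ∑ u ∈ V K1 (o - r), ∑ v ∈ V N2 r, f (u ++ v) := by
  classical
  have h1 : ∑ v ∈ Sg K1 N2 o t, f v =
      ∑ v ∈ V (K1 + N2) o, if t ≤ ones (v.take K1) then f v else 0 := by
    unfold Sg V
    rw [← sum_filter, filter_filter]
  rw [h1, sum_V_add]
  have h2 : ∀ r ∈ range (o + 1), ∑ u ∈ V K1 (o - r), ∑ v ∈ V N2 r,
      (if t ≤ ones ((u ++ v).take K1) then f (u ++ v) else 0) =
      if r ∈ range (o - t + 1) then ∑ u ∈ V K1 (o - r), ∑ v ∈ V N2 r, f (u ++ v) else 0 := by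
    intro r hr
    rw [mem_range] at hr
    by_cases h : r ∈ range (o - t + 1)
    · rw [if_pos h]
      rw [mem_range] at h
      apply sum_congr rfl
      intro u hu
      apply sum_congr rfl
      intro v _
      rw [mem_V] at hu
      rw [List.take_left' hu.1, if_pos (by omega)]
    · rw [if_neg h]
      rw [mem_range] at h
      apply sum_eq_zero
      intro u hu
      apply sum_eq_zero
      intro v _
      rw [mem_V] at hu
      rw [List.take_left' hu.1, if_neg (by omega)]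
  rw [sum_congr rfl h2, ← sum_filter]
  apply sum_congr _ (fun _ _ => rfl)
  ext r
  rw [mem_filter, mem_range, mem_range]
  omega

lemma norm_Sg {K1 m M K o t : ℕ} (hK : K = K1 + 2 * m * M) (ht : t ≤ o) (k g0 : ℤ) (ξ : ℕ) :
    ‖∑ v ∈ Sg K1 (2 * m * M) o t, e (ξ * (((-k * (3 * g0) * cw v : ℤ) : ℝ) / 2 ^ K))‖ ≤
      ∑ r ∈ range (o - t + 1), ((V K1 (o - r)).card : ℝ) * A m M (-k * g0) ξ r := by
  rw [sum_Sg ht]
  refine (norm_sum_le _ _).trans (sum_le_sum fun r _ => ?_)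
  have h1 : ∀ u ∈ V K1 (o - r), ∑ v ∈ V (2 * m * M) r,
      e (ξ * (((-k * (3 * g0) * cw (u ++ v) : ℤ) : ℝ) / 2 ^ K)) =
      e (ξ * (((-k * (3 * g0) * (3 ^ r * cw u) : ℤ) : ℝ) / 2 ^ K)) *
        ∑ v ∈ V (2 * m * M) r, e (3 * ((((ξ : ℤ) * (-k * g0) : ℤ) : ℝ) / 2 ^ (2 * m * M)) * cw v) := by
    intro u hu
    rw [mul_sum]
    apply sum_congr rfl
    intro v hv
    rw [mem_V] at hu hv
    rw [← e_add, cw_append, hu.1, hv.2]
    congr 1
    have e2 : (2 : ℝ) ^ K = 2 ^ K1 * 2 ^ (2 * m * M) := by rw [hK, pow_add]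
    rw [e2]
    push_cast
    field_simp
    ring
  rw [sum_congr rfl h1]
  refine (norm_sum_le _ _).trans ?_
  have h2 : ∀ u ∈ V K1 (o - r), ‖e (ξ * (((-k * (3 * g0) * (3 ^ r * cw u) : ℤ) : ℝ) / 2 ^ K)) *
        ∑ v ∈ V (2 * m * M) r,
          e (3 * ((((ξ : ℤ) * (-k * g0) : ℤ) : ℝ) / 2 ^ (2 * m * M)) * cw v)‖ =
      A m M (-k * g0) ξ r := by
    intro u _
    rw [norm_mul, norm_e, one_mul]
    rfl
  rw [sum_congr rfl h2, sum_const, nsmul_eq_mul]

theorem count_type {p q : ℝ} (hp : 0 < p) (hq : 0 < q) (hpq : p + q = 1) {k : ℤ} (hk : Odd k)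
    {m M K1 K R o t n : ℕ} (hK : K = K1 + 2 * m * M) (hM : M = 2 * n) (hn : 1 ≤ n)
    (ht : t ≤ o) (hR0 : 0 < R) (hR : R ≤ 2 ^ (2 * m))
    (hrid : ∀ j < M, ∀ L, t < L → L ≤ o + 1 → ∀ x d : ℤ, |x| ≤ 2 ^ (2 * m * j) → |d| < R →
      (2 : ℤ) ^ (2 * m * (j + 1)) ∣ 3 ^ L * x + k * d → x = 0)
    {z : ℝ} (hz0 : 0 < z) (hz1 : z ≤ 1) (hz : (1 - p * q / 32) ^ n ≤ z ^ 2)
    (u : ℤ) (B : Finset ℤ)
    (hB : ∀ x ∈ B, |x - u| * (8 * R) ≤ 2 ^ K ∧ wd k K x ∈ Sg K1 (2 * m * M) o t) :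
    (B.card : ℝ) * (p ^ o * q ^ (K - o)) ≤
      4 / R * (((o : ℝ) + 1) ^ (n + 1) * (M * (((o : ℝ) + 1) * (2 * m + 1)) * ((1 + 12 * z) ^ m / z))) := by
  classical
  -- the inverse of `3`
  obtain ⟨g0, hg0⟩ : ∃ g0 : ℤ, (2 : ℤ) ^ K ∣ 3 ^ (o + 1) * g0 - 1 := by
    have hc : IsCoprime ((3 : ℤ) ^ (o + 1)) (2 ^ K) := by
      apply IsCoprime.pow
      rw [Int.isCoprime_iff_gcd_eq_one]; norm_num
    obtain ⟨u, w, huw⟩ := hc
    exact ⟨u, -w, by linear_combination huw⟩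
  have hg : (2 : ℤ) ^ K ∣ 3 ^ o * (3 * g0) - 1 := by
    have : 3 ^ o * (3 * g0) - 1 = 3 ^ (o + 1) * g0 - 1 := by ring
    rw [this]; exact hg0
  have hak : (2 : ℤ) ^ K ∣ 3 ^ (o + 1) * (-k * g0) + k := by
    have : 3 ^ (o + 1) * (-k * g0) + k = -k * (3 ^ (o + 1) * g0 - 1) := by ring
    rw [this]; exact hg0.mul_left _
  set a : ℤ := -k * g0 with ha
  have hRR : (0 : ℝ) < R := by exact_mod_cast hR0
  set P : ℝ := p ^ o * q ^ (K - o) with hP
  have hP0 : 0 < P := by positivity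
  -- the count
  have hcount := count_four hk hR0 (Sg K1 (2 * m * M) o t) (by
    rw [hK]; exact filter_subset _ _) (fun v hv => (mem_filter.1 hv).2.1) hg u B hB
  -- the parameters
  set Pm : Finset (ℕ × (ℕ × ℕ)) := range M ×ˢ (range (o - t + 1) ×ˢ range (2 * m + 1)) with hPm
  set Gp : ℕ → ℕ × (ℕ × ℕ) → ℝ := fun ξ x => G p q m x.2.2 (2 * m * (x.1 + 1)) (a * 3 ^ x.2.1) ξ with hGp
  have hne : Pm.Nonempty := by
    refine ⟨(0, (0, 0)), ?_⟩
    rw [hPm, mem_product, mem_product, mem_range, mem_range, mem_range]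
    refine ⟨by omega, Nat.succ_pos _, Nat.succ_pos _⟩
  have hGp0 : ∀ ξ x, 0 ≤ Gp ξ x := fun ξ x => G_nonneg hp hq _ _ _ _ _
  have hmax : ∀ ξ : ℕ, ∃ S : ℝ, 0 ≤ S ∧ (∀ x ∈ Pm, Gp ξ x ≤ S) ∧ S ^ n ≤ ∑ x ∈ Pm, Gp ξ x ^ n := by
    intro ξ
    obtain ⟨x0, hx0, hmx⟩ := exists_max_image Pm (Gp ξ) hne
    refine ⟨Gp ξ x0, hGp0 ξ x0, hmx, ?_⟩
    exact single_le_sum (f := fun x => Gp ξ x ^ n) (fun x _ => pow_nonneg (hGp0 ξ x) n) hx0
  choose S hS0 hSG hSn using hmax
  -- one frequency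
  have hfreq : ∀ ξ : ℕ, ‖∑ v ∈ Sg K1 (2 * m * M) o t,
      e (ξ * (((-k * (3 * g0) * cw v : ℤ) : ℝ) / 2 ^ K))‖ * P ≤ ((o : ℝ) + 1) ^ (n + 1) * S ξ ^ n := by
    intro ξ
    have h1 := norm_Sg hK ht k g0 ξ
    have hrm : ((o - t : ℕ) : ℝ) ≤ o := by exact_mod_cast Nat.sub_le _ _
    have h2 : ∀ r ∈ range (o - t + 1), ((V K1 (o - r)).card : ℝ) * A m M a ξ r * P ≤
        ((o : ℝ) + 1) ^ n * S ξ ^ n := by
      intro r hr
      rw [mem_range] at hr
      rcases Nat.lt_or_ge K1 (o - r) with h5 | h5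
      · rw [V_empty h5]
        simp only [card_empty, Nat.cast_zero, zero_mul]
        have := hS0 ξ
        positivity
      rcases Nat.lt_or_ge (2 * m * M) r with h6 | h6
      · have h7 : A m M a ξ r = 0 := by unfold A; rw [V_empty h6]; simp
        rw [h7, mul_zero, zero_mul]
        have := hS0 ξ
        positivity
      have e1 : P = (p ^ (o - r) * q ^ (K1 - (o - r))) * (p ^ r * q ^ (2 * m * M - r)) := by
        have a1 : p ^ o = p ^ (o - r) * p ^ r := by rw [← pow_add]; congr 1; omega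
        have a2 : q ^ (K - o) = q ^ (K1 - (o - r)) * q ^ (2 * m * M - r) := by
          rw [← pow_add]; congr 1; omega
        rw [hP, a1, a2]; ring
      have h8 := card_V_le hp hq hpq K1 (o - r)
      have h9 := card_V_le hp hq hpq (2 * m * M) r
      have h10 := A_bound hp hq m a ξ (o - t) M (hS0 ξ) (by
        intro j hj r' hr' r'' hr''
        exact hSG ξ (j, (r', r'')) (by
          rw [hPm, mem_product, mem_product, mem_range, mem_range, mem_range]
          exact ⟨hj, Nat.lt_succ_of_le hr', Nat.lt_succ_of_le hr''⟩)) M le_rfl r (by omega)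
      set Pr' : ℝ := p ^ r * q ^ (2 * m * M - r) with hPr'
      have hPr0 : 0 < Pr' := by positivity
      have hA0 : 0 ≤ A m M a ξ r := norm_nonneg _
      have h11 : A m M a ξ r * Pr' ≤ ((o : ℝ) + 1) ^ n * S ξ ^ n := by
        have hS := hS0 ξ
        apply le_of_sq_le_sq _ (by positivity)
        calc (A m M a ξ r * Pr') ^ 2 = (A m M a ξ r ^ 2 * Pr') * Pr' := by ring
          _ ≤ ((((o - t : ℕ) : ℝ) + 1) ^ M * S ξ ^ M * (V (2 * m * M) r).card) * Pr' :=
              mul_le_mul_of_nonneg_right h10 hPr0.le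
          _ = (((o - t : ℕ) : ℝ) + 1) ^ M * S ξ ^ M * ((V (2 * m * M) r).card * Pr') := by ring
          _ ≤ (((o - t : ℕ) : ℝ) + 1) ^ M * S ξ ^ M * 1 :=
              mul_le_mul_of_nonneg_left h9 (by positivity)
          _ ≤ ((o : ℝ) + 1) ^ M * S ξ ^ M := by
              rw [mul_one]
              apply mul_le_mul_of_nonneg_right _ (by positivity)
              exact pow_le_pow_left₀ (by positivity) (by linarith) M
          _ = _ := by rw [hM, mul_comm 2 n, pow_mul, pow_mul, mul_pow]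
      have hPU0 : 0 ≤ ((V K1 (o - r)).card : ℝ) * (p ^ (o - r) * q ^ (K1 - (o - r))) := by positivity
      calc ((V K1 (o - r)).card : ℝ) * A m M a ξ r * P
          = (((V K1 (o - r)).card : ℝ) * (p ^ (o - r) * q ^ (K1 - (o - r)))) *
            (A m M a ξ r * Pr') := by rw [e1]; ring
        _ ≤ 1 * (((o : ℝ) + 1) ^ n * S ξ ^ n) :=
            mul_le_mul h8 h11 (by positivity) zero_le_one
        _ = _ := one_mul _
    calc ‖∑ v ∈ Sg K1 (2 * m * M) o t,
          e (ξ * (((-k * (3 * g0) * cw v : ℤ) : ℝ) / 2 ^ K))‖ * P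
        ≤ (∑ r ∈ range (o - t + 1), ((V K1 (o - r)).card : ℝ) * A m M a ξ r) * P :=
          mul_le_mul_of_nonneg_right h1 hP0.le
      _ = ∑ r ∈ range (o - t + 1), ((V K1 (o - r)).card : ℝ) * A m M a ξ r * P := by rw [sum_mul]
      _ ≤ ∑ _r ∈ range (o - t + 1), ((o : ℝ) + 1) ^ n * S ξ ^ n := sum_le_sum h2
      _ = (((o - t : ℕ) : ℝ) + 1) * (((o : ℝ) + 1) ^ n * S ξ ^ n) := by
          rw [sum_const, card_range, nsmul_eq_mul]; push_cast; ring
      _ ≤ ((o : ℝ) + 1) * (((o : ℝ) + 1) ^ n * S ξ ^ n) := by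
          have hS := hS0 ξ
          apply mul_le_mul_of_nonneg_right (by linarith) (by positivity)
      _ = _ := by rw [pow_succ]; ring
  -- all frequencies
  have hsum : ∑ ξ ∈ range R, S ξ ^ n ≤ M * (((o : ℝ) + 1) * (2 * m + 1)) * ((1 + 12 * z) ^ m / z) := by
    calc ∑ ξ ∈ range R, S ξ ^ n ≤ ∑ ξ ∈ range R, ∑ x ∈ Pm, Gp ξ x ^ n := sum_le_sum fun ξ _ => hSn ξ
      _ = ∑ x ∈ Pm, ∑ ξ ∈ range R, Gp ξ x ^ n := sum_comm
      _ ≤ ∑ _x ∈ Pm, (1 + 12 * z) ^ m / z := by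
          apply sum_le_sum
          rintro ⟨j, r', r''⟩ hx
          rw [hPm, mem_product, mem_product, mem_range, mem_range, mem_range] at hx
          obtain ⟨hj, hr', hr''⟩ := hx
          simp only at hj hr' hr''
          change ∑ ξ ∈ range R, G p q m r'' (2 * m * (j + 1)) (a * 3 ^ r') ξ ^ n ≤ _
          refine sum_G hp hq hpq (i := 2 * m * j) (L := o + 1 - r') (k := k) (by ring) hk ?_ ?_
            (by omega) ?_ hz0 hz1 hz hn
          · refine hR.trans (Nat.pow_le_pow_right (by norm_num) ?_)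
            exact Nat.le_mul_of_pos_right _ (by omega)
          · have e2 : (3 : ℤ) ^ (o + 1 - r') * (a * 3 ^ r') + k = 3 ^ (o + 1) * a + k := by
              have : (3 : ℤ) ^ (o + 1) = 3 ^ (o + 1 - r') * 3 ^ r' := by
                rw [← pow_add]; congr 1; omega
              rw [this]; ring
            rw [e2]
            refine (pow_dvd_pow 2 ?_).trans hak
            rw [hK]
            have : 2 * m * (j + 1) ≤ 2 * m * M := Nat.mul_le_mul_left _ (by omega)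
            omega
          · exact hrid j hj _ (by omega) (by omega)
      _ = (Pm.card : ℝ) * ((1 + 12 * z) ^ m / z) := by rw [sum_const, nsmul_eq_mul]
      _ ≤ _ := by
          apply mul_le_mul_of_nonneg_right _ (by positivity)
          rw [hPm, card_product, card_product, card_range, card_range, card_range]
          push_cast
          apply mul_le_mul_of_nonneg_left _ (Nat.cast_nonneg _)
          apply mul_le_mul_of_nonneg_right _ (by positivity)
          have : ((o - t : ℕ) : ℝ) ≤ o := by exact_mod_cast Nat.sub_le _ _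
          linarith
  calc (B.card : ℝ) * P ≤ (4 / R * ∑ ξ ∈ range R, ‖∑ v ∈ Sg K1 (2 * m * M) o t,
        e (ξ * (((-k * (3 * g0) * cw v : ℤ) : ℝ) / 2 ^ K))‖) * P :=
        mul_le_mul_of_nonneg_right hcount hP0.le
    _ = 4 / R * ∑ ξ ∈ range R, ‖∑ v ∈ Sg K1 (2 * m * M) o t,
        e (ξ * (((-k * (3 * g0) * cw v : ℤ) : ℝ) / 2 ^ K))‖ * P := by
        rw [mul_assoc, sum_mul]
    _ ≤ 4 / R * ∑ ξ ∈ range R, ((o : ℝ) + 1) ^ (n + 1) * S ξ ^ n :=
        mul_le_mul_of_nonneg_left (sum_le_sum fun ξ _ => hfreq ξ) (by positivity)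
    _ = 4 / R * (((o : ℝ) + 1) ^ (n + 1) * ∑ ξ ∈ range R, S ξ ^ n) := by rw [← mul_sum]
    _ ≤ _ := by
        apply mul_le_mul_of_nonneg_left _ (by positivity)
        exact mul_le_mul_of_nonneg_left hsum (by positivity)

end Pool.Agent.TH930.HW
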