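import Pool.Agent.TH930.HW.Win

/-! Products over windows. -/

set_option autoImplicit false

namespace Pool.Agent.TH930.HW

open Finset Pool.Agent.TH930.EBQ

/-- concatenation -/
lemma sum_V_add {α : Type*} [AddCommMonoid α] (N1 N2 r : ℕ) (f : List Bool → α) :
    ∑ v ∈ V (N1 + N2) r, f v =
      ∑ r' ∈ range (r + 1), ∑ u ∈ V N1 (r - r'), ∑ v ∈ V N2 r', f (u ++ v) := by
  classical
  have h1 : ∑ v ∈ V (N1 + N2) r, f v = ∑ u ∈ words N1, ∑ v ∈ words N2,
      if ones u + ones v = r then f (u ++ v) else 0 := by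
    unfold V
    rw [sum_filter, sum_words_add]
    apply sum_congr rfl
    intro u _
    apply sum_congr rfl
    intro v _
    rw [ones_append]
  rw [h1]
  have h2 : ∀ r' ∈ range (r + 1), ∑ u ∈ V N1 (r - r'), ∑ v ∈ V N2 r', f (u ++ v) =
      ∑ u ∈ words N1, ∑ v ∈ words N2, if ones u = r - r' ∧ ones v = r' then f (u ++ v) else 0 := by
    intro r' _
    unfold V
    rw [sum_filter]
    apply sum_congr rfl
    intro u _
    rw [sum_filter]
    split_ifs with h
    · apply sum_congr rfl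
      intro v _
      by_cases hv : ones v = r'
      · rw [if_pos hv, if_pos ⟨h, hv⟩]
      · rw [if_neg hv, if_neg (fun h => hv h.2)]
    · rw [sum_eq_zero]
      intro v _
      rw [if_neg (fun h' => h h'.1)]
  rw [sum_congr rfl h2, sum_comm (s := range (r + 1))]
  apply sum_congr rfl
  intro u _
  rw [sum_comm (s := range (r + 1))]
  apply sum_congr rfl
  intro v _
  by_cases h : ones u + ones v = r
  · rw [if_pos h, sum_eq_single (ones v)]
    · rw [if_pos ⟨by omega, rfl⟩]
    · intro b _ hb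
      rw [if_neg (fun h' => hb h'.2.symm)]
    · intro h'
      exact absurd (mem_range.2 (by omega)) h'
  · rw [if_neg h, sum_eq_zero]
    intro r' hr'
    rw [mem_range] at hr'
    rw [if_neg (fun h' => h (by omega))]

lemma card_V_add (N1 N2 r : ℕ) :
    (V (N1 + N2) r).card = ∑ r' ∈ range (r + 1), (V N1 (r - r')).card * (V N2 r').card := by
  have h := sum_V_add N1 N2 r (fun _ => 1)
  rw [← card_eq_sum_ones] at h
  rw [h]
  apply sum_congr rfl
  intro r' _
  rw [sum_const, ← card_eq_sum_ones, smul_eq_mul]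

lemma V_empty {N r : ℕ} (h : N < r) : V N r = ∅ := by
  apply eq_empty_of_forall_notMem
  intro v hv
  rw [mem_V] at hv
  have := ones_le_length v
  omega

lemma sum_Pr {p q : ℝ} (hpq : p + q = 1) (N : ℕ) : ∑ v ∈ words N, Pr p q v = 1 := by
  induction N with
  | zero => simp [words, Pr]
  | succ N ih =>
    rw [sum_words_succ]
    simp only [Pr, if_true, Bool.false_eq_true, if_false]
    rw [← ih]
    apply sum_congr rfl
    intro v _
    rw [← add_mul, hpq, one_mul]

lemma card_V_le {p q : ℝ} (hp : 0 < p) (hq : 0 < q) (hpq : p + q = 1) (N r : ℕ) :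
    ((V N r).card : ℝ) * (p ^ r * q ^ (N - r)) ≤ 1 := by
  have h1 : ∑ v ∈ V N r, Pr p q v ≤ 1 := by
    rw [← sum_Pr hpq N]
    apply sum_le_sum_of_subset_of_nonneg (filter_subset _ _)
    intro v _ _
    exact (Pr_pos hp hq v).le
  have h2 : ∑ v ∈ V N r, Pr p q v = ((V N r).card : ℝ) * (p ^ r * q ^ (N - r)) := by
    rw [← nsmul_eq_mul, ← sum_const]
    apply sum_congr rfl
    intro v hv
    rw [mem_V] at hv
    rw [Pr_eq, hv.1, hv.2]
  rw [← h2]; exact h1

/-- the exponential sum over `j` windows -/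
noncomputable def A (m j : ℕ) (a : ℤ) (ξ r : ℕ) : ℝ :=
  ‖∑ v ∈ V (2 * m * j) r, e (3 * ((((ξ : ℤ) * a : ℤ) : ℝ) / 2 ^ (2 * m * j)) * cw v)‖

lemma A_step (m j : ℕ) (a : ℤ) (ξ r : ℕ) :
    A m (j + 1) a ξ r ≤ ∑ r' ∈ range (r + 1),
      E m (r - r') (2 * m * (j + 1)) (a * 3 ^ r') ξ * A m j a ξ r' := by
  unfold A
  have e1 : 2 * m * (j + 1) = 2 * m + 2 * m * j := by ring
  have h := sum_V_add (2 * m) (2 * m * j) r
    (fun v => e (3 * ((((ξ : ℤ) * a : ℤ) : ℝ) / 2 ^ (2 * m * (j + 1))) * cw v))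
  rw [← e1] at h
  rw [h]
  refine (norm_sum_le _ _).trans (sum_le_sum fun r' _ => ?_)
  unfold E
  rw [← norm_mul, sum_mul_sum]
  apply le_of_eq
  congr 1
  apply sum_congr rfl
  intro u hu
  apply sum_congr rfl
  intro v hv
  rw [mem_V] at hu hv
  rw [← e_add, cw_append, hu.1, hv.2]
  congr 1
  have e2 : (2 : ℝ) ^ (2 * m * (j + 1)) = 2 ^ (2 * m) * 2 ^ (2 * m * j) := by
    rw [← pow_add]; congr 1
  rw [e2]
  push_cast
  field_simp

/-- the induction -/
lemma A_bound {p q : ℝ} (hp : 0 < p) (hq : 0 < q) (m : ℕ) (a : ℤ) (ξ rm M : ℕ) {S : ℝ} (hS : 0 ≤ S)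
    (hG : ∀ j < M, ∀ r' ≤ rm, ∀ r'' ≤ 2 * m, G p q m r'' (2 * m * (j + 1)) (a * 3 ^ r') ξ ≤ S) :
    ∀ j ≤ M, ∀ r ≤ rm, A m j a ξ r ^ 2 * (p ^ r * q ^ (2 * m * j - r)) ≤
      ((rm : ℝ) + 1) ^ j * S ^ j * (V (2 * m * j) r).card := by
  intro j
  induction j with
  | zero =>
    intro _ r _
    rcases Nat.eq_zero_or_pos r with rfl | hr
    · have h0 : V (2 * m * 0) 0 = {[]} := by
        ext v
        rw [mem_V, mem_singleton, mul_zero, List.length_eq_zero_iff]
        constructor
        · exact fun h => h.1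
        · rintro rfl; exact ⟨rfl, rfl⟩
      unfold A
      rw [h0, sum_singleton, norm_e]
      simp
    · have h1 : V (2 * m * 0) r = ∅ := V_empty (by simpa using hr)
      have h2 : A m 0 a ξ r = 0 := by unfold A; rw [h1]; simp
      rw [h1, h2]; simp
  | succ j ih =>
    intro hj r hr
    have ih' := ih (by omega)
    have h1 := A_step m j a ξ r
    have hA0 : 0 ≤ A m (j + 1) a ξ r := norm_nonneg _
    have h2 : A m (j + 1) a ξ r ^ 2 ≤ ((rm : ℝ) + 1) * ∑ r' ∈ range (r + 1),
        (E m (r - r') (2 * m * (j + 1)) (a * 3 ^ r') ξ * A m j a ξ r') ^ 2 := by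
      have h3 := sq_sum_le_card_mul_sum_sq (s := range (r + 1))
        (f := fun r' => E m (r - r') (2 * m * (j + 1)) (a * 3 ^ r') ξ * A m j a ξ r')
      rw [card_range] at h3
      refine (pow_le_pow_left₀ hA0 h1 2).trans (h3.trans ?_)
      apply mul_le_mul_of_nonneg_right _ (sum_nonneg fun _ _ => sq_nonneg _)
      push_cast
      have : (r : ℝ) ≤ rm := by exact_mod_cast hr
      linarith
    have hP : 0 ≤ p ^ r * q ^ (2 * m * (j + 1) - r) := by positivity
    refine (mul_le_mul_of_nonneg_right h2 hP).trans ?_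
    have hrm : (0 : ℝ) ≤ (rm : ℝ) + 1 := by positivity
    have h4 : ∀ r' ∈ range (r + 1),
        (E m (r - r') (2 * m * (j + 1)) (a * 3 ^ r') ξ * A m j a ξ r') ^ 2 *
          (p ^ r * q ^ (2 * m * (j + 1) - r)) ≤
        ((rm : ℝ) + 1) ^ j * S ^ (j + 1) *
          (((V (2 * m) (r - r')).card : ℝ) * (V (2 * m * j) r').card) := by
      intro r' hr'
      rw [mem_range] at hr'
      rcases Nat.lt_or_ge (2 * m) (r - r') with h5 | h5
      · have h6 : E m (r - r') (2 * m * (j + 1)) (a * 3 ^ r') ξ = 0 := by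
          unfold E; rw [V_empty h5]; simp
        rw [h6, V_empty h5]; simp
      rcases Nat.lt_or_ge (2 * m * j) r' with h7 | h7
      · have h6 : A m j a ξ r' = 0 := by
          unfold A; rw [V_empty h7]; simp
        rw [h6, V_empty h7]; simp
      have h8 := E_sq hp hq h5 (2 * m * (j + 1)) (a * 3 ^ r') ξ
      have h9 := ih' r' (by omega)
      have h10 := hG j (by omega) r' (by omega) (r - r') h5
      have e1 : p ^ r * q ^ (2 * m * (j + 1) - r) =
          (p ^ (r - r') * q ^ (2 * m - (r - r'))) * (p ^ r' * q ^ (2 * m * j - r')) := by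
        have a1 : p ^ r = p ^ (r - r') * p ^ r' := by rw [← pow_add]; congr 1; omega
        have a2 : q ^ (2 * m * (j + 1) - r) = q ^ (2 * m - (r - r')) * q ^ (2 * m * j - r') := by
          rw [← pow_add]; congr 1
          have : 2 * m * (j + 1) = 2 * m + 2 * m * j := by ring
          omega
        rw [a1, a2]; ring
      rw [e1]
      have hE0 : 0 ≤ E m (r - r') (2 * m * (j + 1)) (a * 3 ^ r') ξ ^ 2 *
          (p ^ (r - r') * q ^ (2 * m - (r - r'))) := by positivity
      have hG0 := G_nonneg hp hq m (r - r') (2 * m * (j + 1)) (a * 3 ^ r') ξ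
      calc (E m (r - r') (2 * m * (j + 1)) (a * 3 ^ r') ξ * A m j a ξ r') ^ 2 *
            ((p ^ (r - r') * q ^ (2 * m - (r - r'))) * (p ^ r' * q ^ (2 * m * j - r')))
          = (E m (r - r') (2 * m * (j + 1)) (a * 3 ^ r') ξ ^ 2 *
              (p ^ (r - r') * q ^ (2 * m - (r - r')))) *
            (A m j a ξ r' ^ 2 * (p ^ r' * q ^ (2 * m * j - r'))) := by ring
        _ ≤ ((V (2 * m) (r - r')).card * S) *
            (((rm : ℝ) + 1) ^ j * S ^ j * (V (2 * m * j) r').card) := by
            apply mul_le_mul _ h9 (by positivity) (by positivity)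
            exact h8.trans (mul_le_mul_of_nonneg_left h10 (Nat.cast_nonneg _))
        _ = _ := by rw [pow_succ]; ring
    calc ((rm : ℝ) + 1) * (∑ r' ∈ range (r + 1),
          (E m (r - r') (2 * m * (j + 1)) (a * 3 ^ r') ξ * A m j a ξ r') ^ 2) *
          (p ^ r * q ^ (2 * m * (j + 1) - r))
        = ((rm : ℝ) + 1) * ∑ r' ∈ range (r + 1),
          (E m (r - r') (2 * m * (j + 1)) (a * 3 ^ r') ξ * A m j a ξ r') ^ 2 *
          (p ^ r * q ^ (2 * m * (j + 1) - r)) := by rw [mul_assoc, sum_mul]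
      _ ≤ ((rm : ℝ) + 1) * ∑ r' ∈ range (r + 1), ((rm : ℝ) + 1) ^ j * S ^ (j + 1) *
          (((V (2 * m) (r - r')).card : ℝ) * (V (2 * m * j) r').card) :=
          mul_le_mul_of_nonneg_left (sum_le_sum h4) hrm
      _ = ((rm : ℝ) + 1) ^ (j + 1) * S ^ (j + 1) *
          ∑ r' ∈ range (r + 1), ((V (2 * m) (r - r')).card : ℝ) * (V (2 * m * j) r').card := by
          rw [← mul_sum, pow_succ ((rm : ℝ) + 1)]; ring
      _ = _ := by
          have e2 : 2 * m * (j + 1) = 2 * m + 2 * m * j := by ring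
          rw [e2, card_V_add]
          push_cast
          rfl

end Pool.Agent.TH930.HW
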