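import Pool.Agent.TH930.HW.Count
import Pool.Agent.TH930.EBQ.Const

/-! The main count, with the theorem of Ridout. -/

set_option autoImplicit false

namespace Pool.Agent.TH930.HW

open Finset Pool.Agent.TH930.EBQ

lemma abs_one_le {k : ℤ} (hk : Odd k) : (1 : ℝ) ≤ |(k : ℝ)| := by
  have hk0 : k ≠ 0 := by rintro rfl; simp at hk
  have : (1 : ℤ) ≤ |k| := Int.one_le_abs hk0
  exact_mod_cast this

/-- the hypothesis on the frequencies -/
theorem hrid_of {δ : ℝ} (hδ : 0 < δ) : ∃ N0 : ℕ, ∀ N : ℕ, N0 ≤ N → ∀ (k : ℤ), Odd k →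
    ∀ m j L R : ℕ, 1 ≤ m → δ * L ≤ N → δ * (2 * m * (j + 1) : ℕ) ≤ N → 2 * m ≤ L →
    |(k : ℝ)| * R ≤ 2 ^ (2 * m) * Real.exp (-(δ * N)) →
    ∀ x d : ℤ, |x| ≤ 2 ^ (2 * m * j) → |d| < R →
      (2 : ℤ) ^ (2 * m * (j + 1)) ∣ 3 ^ L * x + k * d → x = 0 := by
  haveI : Fact (Nat.Prime 3) := ⟨by norm_num⟩
  haveI : Fact (Nat.Prime 2) := ⟨by norm_num⟩
  obtain ⟨N0, h⟩ := ridout (p := 3) (q := 2) (by norm_num) hδ
  refine ⟨N0, ?_⟩
  intro N hN k hk m j L R hm hL hB hmL hkR x d hx hd hdvd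
  by_contra hx0
  have hBe : 2 * m * (j + 1) = 2 * m * j + 2 * m := by ring
  by_cases hd0 : d = 0
  · rw [hd0, mul_zero, add_zero] at hdvd
    have hc : IsCoprime ((2 : ℤ) ^ (2 * m * (j + 1))) (3 ^ L) := by
      apply IsCoprime.pow
      rw [Int.isCoprime_iff_gcd_eq_one]; norm_num
    have h1 := hc.dvd_of_dvd_mul_left hdvd
    apply hx0
    apply Int.eq_zero_of_abs_lt_dvd h1
    refine lt_of_le_of_lt hx ?_
    apply pow_lt_pow_right₀ (by norm_num)
    omega
  have hk0 : k ≠ 0 := by rintro rfl; simp at hk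
  have hkd : |((k * d : ℤ) : ℝ)| ≤ |(k : ℝ)| * R := by
    push_cast
    rw [abs_mul]
    apply mul_le_mul_of_nonneg_left _ (abs_nonneg _)
    have : |d| ≤ R := hd.le
    exact_mod_cast this
  have hxR : |(x : ℝ)| ≤ 2 ^ (2 * m * j) := by exact_mod_cast hx
  have h3L : (0 : ℝ) < 3 ^ L := by positivity
  apply h N hN L (2 * m * (j + 1)) hL hB (3 ^ L * x) (k * d)
    (mul_ne_zero (by positivity) hx0) (mul_ne_zero hk0 hd0)
    (by exact_mod_cast dvd_mul_right _ _) (by exact_mod_cast hdvd)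
  · push_cast
    rw [abs_mul, abs_of_pos h3L, mul_assoc]
    have h1 : |(x : ℝ)| * |(k : ℝ) * d| ≤ 2 ^ (2 * m * j) * (2 ^ (2 * m) * Real.exp (-(δ * N))) := by
      apply mul_le_mul hxR _ (abs_nonneg _) (by positivity)
      refine le_trans ?_ hkR
      have := hkd
      push_cast at this
      exact this
    calc (3 : ℝ) ^ L * (|(x : ℝ)| * |(k : ℝ) * d|) ≤
          3 ^ L * (2 ^ (2 * m * j) * (2 ^ (2 * m) * Real.exp (-(δ * N)))) :=
          mul_le_mul_of_nonneg_left h1 h3L.le
      _ = _ := by rw [hBe, pow_add]; ring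
  · refine (hkd.trans hkR).trans ?_
    apply mul_le_mul_of_nonneg_right _ (Real.exp_pos _).le
    push_cast
    calc (2 : ℝ) ^ (2 * m) ≤ 3 ^ (2 * m) := pow_le_pow_left₀ (by norm_num) (by norm_num) _
      _ ≤ 3 ^ L := pow_le_pow_right₀ (by norm_num) hmL

lemma poly_le_exp (d : ℕ) {a : ℝ} (ha : 0 < a) : ∃ C : ℝ, 0 < C ∧ ∀ K : ℕ,
    ((K : ℝ) + 1) ^ d ≤ C * Real.exp (a * K) := by
  refine ⟨d.factorial / a ^ d * Real.exp a, by positivity, fun K => ?_⟩
  have h1 := Real.pow_div_factorial_le_exp (a * ((K : ℝ) + 1)) (by positivity) d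
  rw [div_le_iff₀ (by positivity), mul_pow] at h1
  have h2 : Real.exp (a * ((K : ℝ) + 1)) = Real.exp (a * K) * Real.exp a := by
    rw [← Real.exp_add]; congr 1; ring
  rw [h2] at h1
  have had : 0 < a ^ d := by positivity
  calc ((K : ℝ) + 1) ^ d = a ^ d * ((K : ℝ) + 1) ^ d / a ^ d := by field_simp
    _ ≤ (Real.exp (a * K) * Real.exp a * d.factorial) / a ^ d :=
        div_le_div_of_nonneg_right h1 had.le
    _ = _ := by ring

/-- the words with few ones among the first letters -/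
lemma bad_words {p q : ℝ} (hp : 0 < p) (hq : 0 < q) (hpq : p + q = 1) (K1 N2 o t : ℕ)
    (S : Finset (List Bool)) (hS : ∀ v ∈ S, v.length = K1 + N2 ∧ ones v = o ∧ ones (v.take K1) < t) :
    (S.card : ℝ) * (p ^ o * q ^ (K1 + N2 - o)) ≤ 2 ^ t * (1 - p / 2) ^ K1 := by
  classical
  have h1 : ∑ v ∈ S, Pr p q v = (S.card : ℝ) * (p ^ o * q ^ (K1 + N2 - o)) := by
    rw [← nsmul_eq_mul, ← sum_const]
    apply sum_congr rfl
    intro v hv
    obtain ⟨h1, h2, -⟩ := hS v hv
    rw [Pr_eq, h1, h2]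
  rw [← h1]
  have hsub : S ⊆ (words (K1 + N2)).filter (fun v => ones (v.take K1) < t) := by
    intro v hv
    obtain ⟨h1, -, h3⟩ := hS v hv
    rw [mem_filter, mem_words]
    exact ⟨h1, h3⟩
  have h2 : ∑ v ∈ S, Pr p q v ≤
      ∑ v ∈ words (K1 + N2), if ones (v.take K1) < t then Pr p q v else 0 := by
    rw [← sum_filter]
    apply sum_le_sum_of_subset_of_nonneg hsub
    intro v _ _
    exact (Pr_pos hp hq v).le
  refine h2.trans ?_
  rw [sum_words_add]
  have hPadd : ∀ u v : List Bool, Pr p q (u ++ v) = Pr p q u * Pr p q v := by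
    intro u v
    induction u with
    | nil => simp [Pr]
    | cons b u ih => rw [List.cons_append, Pr, Pr, ih]; ring
  have hhalf : ∀ u : List Bool, Pr (p / 2) q u = Pr p q u * (1 / 2) ^ ones u := by
    intro u
    rw [Pr_eq, Pr_eq, div_eq_mul_one_div p 2, mul_pow]
    ring
  calc ∑ u ∈ words K1, ∑ v ∈ words N2, (if ones ((u ++ v).take K1) < t then Pr p q (u ++ v) else 0)
      ≤ ∑ u ∈ words K1, ∑ v ∈ words N2, 2 ^ t * (Pr (p / 2) q u * Pr p q v) := by
        apply sum_le_sum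
        intro u hu
        apply sum_le_sum
        intro v _
        rw [mem_words] at hu
        rw [List.take_left' hu, hPadd, hhalf]
        have hu0 := Pr_pos hp hq u
        have hv0 := Pr_pos hp hq v
        split_ifs with h
        · have h3 : (1 : ℝ) ≤ 2 ^ t * (1 / 2) ^ ones u := by
            have h4 : (2 : ℝ) ^ ones u * (1 / 2) ^ ones u = 1 := by
              rw [← mul_pow]; norm_num
            calc (1 : ℝ) = 2 ^ ones u * (1 / 2) ^ ones u := h4.symm
              _ ≤ _ := mul_le_mul_of_nonneg_right (pow_le_pow_right₀ (by norm_num) h.le)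
                  (by positivity)
          calc Pr p q u * Pr p q v = 1 * (Pr p q u * Pr p q v) := (one_mul _).symm
            _ ≤ (2 ^ t * (1 / 2) ^ ones u) * (Pr p q u * Pr p q v) :=
                mul_le_mul_of_nonneg_right h3 (by positivity)
            _ = _ := by ring
        · positivity
    _ = 2 ^ t * ((∑ u ∈ words K1, Pr (p / 2) q u) * ∑ v ∈ words N2, Pr p q v) := by
        rw [sum_mul_sum, mul_sum]
        apply sum_congr rfl
        intro u _
        rw [mul_sum]
    _ = 2 ^ t * (1 - p / 2) ^ K1 := by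
        rw [EBQ.sum_Pr, EBQ.sum_Pr, hpq, one_pow, mul_one]
        congr 2
        linarith

theorem main_gen {δ1 : ℝ} (hδ0 : 0 < δ1) (hδ1 : δ1 ≤ 1 / 2) {n : ℕ} (hn : 2 / δ1 ≤ n) :
    ∃ C : ℝ, 0 < C ∧ ∀ p : ℝ, δ1 ≤ p → p ≤ 1 - δ1 → ∀ K : ℕ, ∀ k : ℤ, Odd k → ∀ ρ : ℕ,
      |(k : ℝ)| * 2 ^ ρ ≤ 2 ^ (K / (8 * n)) → ∀ o ≤ K, ∀ (u : ℤ) (B : Finset ℤ),
      (∀ x ∈ B, |x - u| * (8 * 2 ^ ρ) ≤ 2 ^ K ∧ ones (wd k K x) = o) →
      (B.card : ℝ) * (p ^ o * (1 - p) ^ (K - o)) ≤
        C * Real.exp (2 * Real.exp (-(δ1 * n / 128)) * K) / 2 ^ ρ := by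
  classical
  have hnR : 4 ≤ (n : ℝ) := by
    refine le_trans ?_ hn
    rw [le_div_iff₀ hδ0]; linarith
  have hn4 : 4 ≤ n := by exact_mod_cast hnR
  have hn0 : (0 : ℝ) < n := by linarith
  have hδn : 2 ≤ δ1 * n := by
    rw [div_le_iff₀ hδ0] at hn; linarith
  set z : ℝ := Real.exp (-(δ1 * n / 128)) with hz
  have hz0 : 0 < z := Real.exp_pos _
  have hz1 : z ≤ 1 := by
    rw [hz, Real.exp_le_one_iff]
    have : 0 < δ1 * n / 128 := by positivity
    linarith
  obtain ⟨N0, hrid⟩ := hrid_of (δ := 1 / (32 * n)) (by positivity)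
  obtain ⟨C1, hC1, hpoly⟩ := poly_le_exp (n + 3) (a := z / 2) (by positivity)
  set K0 : ℕ := max N0 (16 * n) with hK0
  refine ⟨3 * 4 ^ K0 + 8 * n * C1 / z + 1, by positivity, ?_⟩
  intro p hp1 hp2 K k hk ρ hkρ o ho u B hB
  set q : ℝ := 1 - p with hq
  have hp : 0 < p := by linarith
  have hq0 : 0 < q := by rw [hq]; linarith
  have hpq : p + q = 1 := by rw [hq]; ring
  have hpq2 : δ1 / 2 ≤ p * q := by
    have h1 : δ1 ≤ q := by rw [hq]; linarith
    rcases le_total p q with h | h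
    · have : 1 / 2 ≤ q := by linarith
      nlinarith
    · have : 1 / 2 ≤ p := by linarith
      nlinarith
  have hk1 := abs_one_le hk
  have h2ρ : (0 : ℝ) < 2 ^ ρ := by positivity
  have hρ : (2 : ℝ) ^ ρ ≤ 2 ^ (K / (8 * n)) := by
    refine le_trans ?_ hkρ
    exact le_mul_of_one_le_left h2ρ.le hk1
  have hPle : p ^ o * q ^ (K - o) ≤ 1 := by
    apply mul_le_one₀ (pow_le_one₀ hp.le (by linarith)) (by positivity) (pow_le_one₀ hq0.le (by linarith))
  have hP0 : 0 < p ^ o * q ^ (K - o) := by positivity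
  have hexp1 : 1 ≤ Real.exp (2 * z * K) := Real.one_le_exp (by positivity)
  rcases Nat.lt_or_ge K K0 with hKs | hKb
  · -- small `K`
    have h1 : B ⊆ Icc (u - 2 ^ K) (u + 2 ^ K) := by
      intro x hx
      have h2 := (hB x hx).1
      have h3 : |x - u| ≤ 2 ^ K := by
        have h4 : |x - u| * 1 ≤ |x - u| * (8 * 2 ^ ρ) := by
          apply mul_le_mul_of_nonneg_left _ (abs_nonneg _)
          have : (1 : ℤ) ≤ 2 ^ ρ := one_le_pow₀ (by norm_num)
          linarith
        linarith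
      rw [abs_le] at h3
      rw [mem_Icc]
      constructor <;> linarith [h3.1, h3.2]
    have h2 : (B.card : ℝ) ≤ 3 * 2 ^ K := by
      have h3 := card_le_card h1
      rw [Int.card_Icc] at h3
      have h4 : (u + 2 ^ K + 1 - (u - 2 ^ K) : ℤ).toNat = 2 * 2 ^ K + 1 := by
        have : (u + 2 ^ K + 1 - (u - 2 ^ K) : ℤ) = ((2 * 2 ^ K + 1 : ℕ) : ℤ) := by push_cast; ring
        rw [this, Int.toNat_natCast]
      rw [h4] at h3
      have h5 : (B.card : ℝ) ≤ 2 * 2 ^ K + 1 := by exact_mod_cast h3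
      have h6 : (1 : ℝ) ≤ 2 ^ K := one_le_pow₀ (by norm_num)
      linarith
    have h3 : (2 : ℝ) ^ ρ ≤ 2 ^ K0 := by
      refine hρ.trans (pow_le_pow_right₀ (by norm_num) ?_)
      exact (Nat.div_le_self _ _).trans hKs.le
    have h4 : (2 : ℝ) ^ K ≤ 2 ^ K0 := pow_le_pow_right₀ (by norm_num) hKs.le
    have h5 : (4 : ℝ) ^ K0 = 2 ^ K0 * 2 ^ K0 := by rw [← mul_pow]; norm_num
    rw [le_div_iff₀ h2ρ]
    calc (B.card : ℝ) * (p ^ o * q ^ (K - o)) * 2 ^ ρ ≤ (3 * 2 ^ K0) * 1 * 2 ^ K0 := by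
          apply mul_le_mul _ h3 h2ρ.le (by positivity)
          apply mul_le_mul _ hPle hP0.le (by positivity)
          linarith
      _ = 3 * 4 ^ K0 * 1 := by rw [h5]; ring
      _ ≤ (3 * 4 ^ K0 + 8 * n * C1 / z + 1) * Real.exp (2 * z * K) := by
          apply mul_le_mul _ hexp1 zero_le_one (by positivity)
          have : 0 < 8 * n * C1 / z := by positivity
          linarith
  -- large `K`
  have hKN : N0 ≤ K := (le_max_left _ _).trans hKb
  have hK16 : 16 * n ≤ K := (le_max_right _ _).trans hKb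
  set m : ℕ := K / (8 * n) with hm
  have hm1 : 8 * n * m ≤ K := Nat.mul_div_le _ _
  have hm2 : K < 8 * n * m + 8 * n := Nat.lt_mul_div_succ K (by omega)
  have hmge : 2 ≤ m := by
    rw [hm, Nat.le_div_iff_mul_le (by omega)]; omega
  have hmK : K ≤ 16 * n * m := by nlinarith
  set K1 : ℕ := K - 2 * m * (2 * n) with hK1
  have e1 : 2 * m * (2 * n) = 4 * (n * m) := by ring
  have e2 : 8 * n * m = 8 * (n * m) := by ring
  have hKK1 : K = K1 + 2 * m * (2 * n) := by omega
  have hK1b : K ≤ 2 * K1 := by omega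
  set R : ℕ := 2 ^ ρ with hR
  have hR0 : 0 < R := by positivity
  have hRR : (R : ℝ) = 2 ^ ρ := by rw [hR]; push_cast; rfl
  -- split
  set B1 := B.filter (fun x => wd k K x ∈ Sg K1 (2 * m * (2 * n)) o (2 * m)) with hB1
  set B2 := B.filter (fun x => ¬ wd k K x ∈ Sg K1 (2 * m * (2 * n)) o (2 * m)) with hB2
  have hsplit : (B.card : ℝ) = B1.card + B2.card := by
    rw [hB1, hB2]; exact_mod_cast (card_filter_add_card_filter_not (s := B) _).symm
  have hmK8 : (m : ℝ) ≤ K / (8 * n) := by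
    rw [le_div_iff₀ (by positivity)]
    have : ((8 * n * m : ℕ) : ℝ) ≤ K := by exact_mod_cast hm1
    push_cast at this
    linarith
  have hl2 := Real.log_two_lt_d9
  have hl2' := Real.log_two_gt_d9
  -- the bad part
  have hb2 : (B2.card : ℝ) * (p ^ o * q ^ (K - o)) ≤ 1 / 2 ^ ρ := by
    have hinj : Set.InjOn (fun x => wd k K x) B2 := by
      intro x hx y hy hxy
      rw [mem_coe, hB2, mem_filter] at hx hy
      have h1 := (hB x hx.1).1
      have h2 := (hB y hy.1).1
      have h3 := wd_inj hk hxy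
      have h4 : x - y = 0 := by
        apply Int.eq_zero_of_abs_lt_dvd h3
        have h5 : |x - y| ≤ |x - u| + |y - u| := by
          have : x - y = (x - u) - (y - u) := by ring
          rw [this]; exact abs_sub _ _
        have h6 : ∀ w : ℤ, 0 ≤ w → w * (8 * 2 ^ ρ) ≤ 2 ^ K → w * 8 ≤ 2 ^ K := by
          intro w hw h
          have h7 : (1 : ℤ) ≤ 2 ^ ρ := one_le_pow₀ (by norm_num)
          nlinarith
        have h7 := h6 _ (abs_nonneg _) h1
        have h8 := h6 _ (abs_nonneg _) h2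
        have h9 : (0 : ℤ) < 2 ^ K := by positivity
        linarith
      linarith
    have h1 := bad_words hp hq0 hpq K1 (2 * m * (2 * n)) o (2 * m) (B2.image (fun x => wd k K x)) (by
      intro v hv
      rw [mem_image] at hv
      obtain ⟨x, hx, rfl⟩ := hv
      rw [hB2, mem_filter] at hx
      have h2 := (hB x hx.1).2
      refine ⟨by rw [wd_length, ← hKK1], h2, ?_⟩
      by_contra hcon
      apply hx.2
      unfold Sg
      rw [mem_filter, mem_words, wd_length, ← hKK1]
      exact ⟨rfl, h2, not_lt.1 hcon⟩)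
    rw [card_image_of_injOn hinj, ← hKK1] at h1
    refine h1.trans ?_
    rw [le_div_iff₀ h2ρ]
    have h2 : 1 - p / 2 ≤ Real.exp (-(δ1 / 2)) := by
      have := Real.add_one_le_exp (-(δ1 / 2))
      linarith
    have h3 : (1 - p / 2) ^ K1 ≤ Real.exp (-(δ1 / 2 * K1)) := by
      calc (1 - p / 2) ^ K1 ≤ Real.exp (-(δ1 / 2)) ^ K1 :=
            pow_le_pow_left₀ (by linarith) h2 K1
        _ = _ := by rw [← Real.exp_nat_mul]; congr 1; ring
    have h4 : (2 : ℝ) ^ (2 * m) * 2 ^ ρ ≤ Real.exp (3 * m * Real.log 2) := by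
      calc (2 : ℝ) ^ (2 * m) * 2 ^ ρ ≤ 2 ^ (2 * m) * 2 ^ m :=
            mul_le_mul_of_nonneg_left hρ (by positivity)
        _ = 2 ^ (3 * m) := by rw [← pow_add]; congr 1; ring
        _ = _ := by
            rw [pow2_exp]; push_cast; rfl
    calc (2 : ℝ) ^ (2 * m) * (1 - p / 2) ^ K1 * 2 ^ ρ
        = (2 ^ (2 * m) * 2 ^ ρ) * (1 - p / 2) ^ K1 := by ring
      _ ≤ Real.exp (3 * m * Real.log 2) * Real.exp (-(δ1 / 2 * K1)) :=
          mul_le_mul h4 h3 (pow_nonneg (by linarith) _) (Real.exp_pos _).le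
      _ = Real.exp (3 * m * Real.log 2 - δ1 / 2 * K1) := by rw [← Real.exp_add]; congr 1
      _ ≤ 1 := by
          rw [Real.exp_le_one_iff]
          have h5 : (K : ℝ) ≤ 2 * K1 := by exact_mod_cast hK1b
          have hKR : (0 : ℝ) ≤ K := Nat.cast_nonneg K
          have h6 : (m : ℝ) ≤ δ1 * K / 16 := by
            refine hmK8.trans ?_
            rw [div_le_div_iff₀ (by positivity) (by norm_num)]
            nlinarith
          have hm0 : (0 : ℝ) ≤ m := Nat.cast_nonneg m
          nlinarith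
  -- the good part
  have hb1 : (B1.card : ℝ) * (p ^ o * q ^ (K - o)) ≤
      8 * n * C1 / z * Real.exp (2 * z * K) / 2 ^ ρ := by
    rcases Nat.lt_or_ge o (2 * m) with hom | hom
    · have h1 : B1 = ∅ := by
        rw [hB1, filter_eq_empty_iff]
        intro x _ h
        unfold Sg at h
        rw [mem_filter, mem_words] at h
        have h2 : ones ((wd k K x).take K1) ≤ ones (wd k K x) :=
          (List.take_sublist _ _).count_le _
        omega
      rw [h1]
      simp only [card_empty, Nat.cast_zero, zero_mul]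
      positivity
    have hm0 : (0 : ℝ) ≤ m := Nat.cast_nonneg m
    have hmR : (2 : ℝ) ≤ m := by exact_mod_cast hmge
    have hct := count_type hp hq0 hpq hk (m := m) (M := 2 * n) (K1 := K1) (K := K) (R := R) (o := o)
      (t := 2 * m) (n := n) hKK1 rfl (by omega) hom hR0 (by
        have h1 : (R : ℝ) ≤ 2 ^ (2 * m) := by
          rw [hRR]
          refine hρ.trans (pow_le_pow_right₀ (by norm_num) (by omega))
        exact_mod_cast h1) (by
        intro j hj L hL1 hL2
        apply hrid K hKN k hk m j L R (by omega) _ _ (by omega)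
        · rw [hRR]
          refine hkρ.trans ?_
          have h1 : (1 : ℝ) ≤ 2 ^ m * Real.exp (-(1 / (32 * n) * K)) := by
            rw [pow2_exp, ← Real.exp_add]
            apply Real.one_le_exp
            have h2 : 1 / (32 * (n : ℝ)) * K ≤ m / 2 := by
              rw [one_div, inv_mul_le_iff₀ (by positivity)]
              have : (K : ℝ) ≤ 16 * n * m := by exact_mod_cast hmK
              linarith
            nlinarith
          calc (2 : ℝ) ^ m = 2 ^ m * 1 := (mul_one _).symm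
            _ ≤ 2 ^ m * (2 ^ m * Real.exp (-(1 / (32 * n) * K))) :=
                mul_le_mul_of_nonneg_left h1 (by positivity)
            _ = _ := by rw [← mul_assoc, ← pow_add]; congr 2; ring
        · rw [one_div, inv_mul_le_iff₀ (by positivity)]
          have h1 : (L : ℝ) ≤ 2 * K := by
            have : L ≤ 2 * K := by omega
            exact_mod_cast this
          have hKR : (0 : ℝ) ≤ K := Nat.cast_nonneg K
          nlinarith
        · rw [one_div, inv_mul_le_iff₀ (by positivity)]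
          have h1 : ((2 * m * (j + 1) : ℕ) : ℝ) ≤ K := by
            have h2 : 2 * m * (j + 1) ≤ 2 * m * (2 * n) := Nat.mul_le_mul_left _ (by omega)
            have : 2 * m * (j + 1) ≤ K := by omega
            exact_mod_cast this
          have hKR : (0 : ℝ) ≤ K := Nat.cast_nonneg K
          nlinarith) hz0 hz1 (by
        have hpq1 : p * q ≤ 1 := by nlinarith
        have h1 : 1 - p * q / 32 ≤ Real.exp (-(δ1 / 64)) := by
          have := Real.add_one_le_exp (-(δ1 / 64))
          linarith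
        calc (1 - p * q / 32) ^ n ≤ Real.exp (-(δ1 / 64)) ^ n :=
              pow_le_pow_left₀ (by linarith) h1 n
          _ = z ^ 2 := by
              rw [hz, ← Real.exp_nat_mul, ← Real.exp_nat_mul]; congr 1; push_cast; ring) u B1 (by
        intro x hx
        rw [hB1, mem_filter] at hx
        refine ⟨?_, hx.2⟩
        have := (hB x hx.1).1
        rw [hR]; push_cast; exact this)
    refine hct.trans ?_
    rw [hRR]
    have h1 : ((o : ℝ) + 1) ≤ K + 1 := by
      have : (o : ℝ) ≤ K := by exact_mod_cast ho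
      linarith
    have h2 : (2 : ℝ) * m + 1 ≤ K + 1 := by
      have : 2 * m ≤ K := by
        have : 2 * m * 1 ≤ 2 * m * (2 * n) := Nat.mul_le_mul_left _ (by omega)
        omega
      have : (2 : ℝ) * m ≤ K := by exact_mod_cast this
      linarith
    have h3 : (1 + 12 * z) ^ m ≤ Real.exp (3 / 2 * z * K) := by
      have h4 : 1 + 12 * z ≤ Real.exp (12 * z) := by
        have := Real.add_one_le_exp (12 * z)
        linarith
      calc (1 + 12 * z) ^ m ≤ Real.exp (12 * z) ^ m := pow_le_pow_left₀ (by positivity) h4 m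
        _ = Real.exp (12 * z * m) := by rw [← Real.exp_nat_mul]; congr 1; ring
        _ ≤ _ := by
            apply Real.exp_le_exp.2
            have h5 : (m : ℝ) ≤ K / 8 := by
              refine hmK8.trans ?_
              rw [div_le_div_iff₀ (by positivity) (by norm_num)]
              have hKR : (0 : ℝ) ≤ K := Nat.cast_nonneg K
              nlinarith
            nlinarith
    have hK1' : (0 : ℝ) < (K : ℝ) + 1 := by positivity
    have h4 : ((o : ℝ) + 1) ^ (n + 1) * (((2 * n : ℕ) : ℝ) * (((o : ℝ) + 1) * (2 * m + 1)) *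
        ((1 + 12 * z) ^ m / z)) ≤ ((K : ℝ) + 1) ^ (n + 3) * (2 * n * (Real.exp (3 / 2 * z * K) / z)) := by
      calc ((o : ℝ) + 1) ^ (n + 1) * (((2 * n : ℕ) : ℝ) * (((o : ℝ) + 1) * (2 * m + 1)) *
            ((1 + 12 * z) ^ m / z))
          ≤ ((K : ℝ) + 1) ^ (n + 1) * (((2 * n : ℕ) : ℝ) * (((K : ℝ) + 1) * (K + 1)) *
            (Real.exp (3 / 2 * z * K) / z)) := by
            apply mul_le_mul (pow_le_pow_left₀ (by positivity) h1 _) _ (by positivity) (by positivity)
            apply mul_le_mul _ (div_le_div_of_nonneg_right h3 hz0.le) (by positivity) (by positivity)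
            apply mul_le_mul_of_nonneg_left _ (Nat.cast_nonneg _)
            exact mul_le_mul h1 h2 (by positivity) hK1'.le
        _ = _ := by push_cast; ring
    calc 4 / 2 ^ ρ * (((o : ℝ) + 1) ^ (n + 1) * (((2 * n : ℕ) : ℝ) * (((o : ℝ) + 1) * (2 * m + 1)) *
          ((1 + 12 * z) ^ m / z)))
        ≤ 4 / 2 ^ ρ * (((K : ℝ) + 1) ^ (n + 3) * (2 * n * (Real.exp (3 / 2 * z * K) / z))) :=
          mul_le_mul_of_nonneg_left h4 (by positivity)
      _ ≤ 4 / 2 ^ ρ * ((C1 * Real.exp (z / 2 * K)) * (2 * n * (Real.exp (3 / 2 * z * K) / z))) := by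
          apply mul_le_mul_of_nonneg_left _ (by positivity)
          exact mul_le_mul_of_nonneg_right (hpoly K) (by positivity)
      _ = 8 * n * C1 / z * (Real.exp (z / 2 * K) * Real.exp (3 / 2 * z * K)) / 2 ^ ρ := by ring
      _ = _ := by rw [← Real.exp_add]; congr 3; ring
  rw [hsplit, add_mul]
  calc (B1.card : ℝ) * (p ^ o * q ^ (K - o)) + B2.card * (p ^ o * q ^ (K - o))
      ≤ 8 * n * C1 / z * Real.exp (2 * z * K) / 2 ^ ρ + 1 / 2 ^ ρ := add_le_add hb1 hb2
    _ = (8 * n * C1 / z * Real.exp (2 * z * K) + 1) / 2 ^ ρ := by rw [add_div]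
    _ ≤ _ := by
        apply div_le_div_of_nonneg_right _ h2ρ.le
        have h4 : (0 : ℝ) < 3 * 4 ^ K0 := by positivity
        nlinarith

end Pool.Agent.TH930.HW
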