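import Pool.Agent.TH930.HW.Chern

/-! From the number of odd iterates to the size of the iterates, for natural numbers and `3x+1`. -/

set_option autoImplicit false

namespace Pool.Agent.TH930.HW

open Finset Pool.Agent.TH930.EBQ

lemma cw_le (v : List Bool) : cw v ≤ 3 ^ v.length := by
  induction v with
  | nil => simp
  | cons b v ih =>
    have h1 : 3 ^ ones v ≤ 3 ^ v.length := Nat.pow_le_pow_right (by norm_num) (ones_le_length v)
    cases b
    · rw [cw_cons_false, List.length_cons, pow_succ]; omega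
    · rw [cw_cons_true, List.length_cons, pow_succ]; omega

/-- the shortcut map -/
def Sn (n : ℕ) : ℕ := if n % 2 = 0 then n / 2 else (3 * n + 1) / 2

lemma T_cast (n : ℕ) : T 1 (n : ℤ) = ((Sn n : ℕ) : ℤ) := by
  unfold T Sn
  by_cases h : n % 2 = 0
  · rw [if_pos (by omega), if_pos h]; omega
  · rw [if_neg (by omega), if_neg h]; omega

lemma T_iter_cast (j : ℕ) (n : ℕ) : (T 1)^[j] (n : ℤ) = ((Sn^[j] n : ℕ) : ℤ) := by
  induction j with
  | zero => rfl
  | succ j ih => rw [Function.iterate_succ_apply', Function.iterate_succ_apply', ih, T_cast]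

lemma Sn_eq (K n : ℕ) : (2 : ℝ) ^ K * (Sn^[K] n : ℕ) =
    3 ^ ones (wd 1 K n) * n + cw (wd 1 K n) := by
  have h := iter_eq odd_one K (n : ℤ)
  rw [T_iter_cast, one_mul] at h
  exact_mod_cast h

lemma pow3_exp' (x : ℝ) (K : ℕ) : Real.exp (x * K * Real.log 3) = (3 : ℝ) ^ (x * K) := by
  rw [Real.rpow_def_of_pos (by norm_num)]; congr 1; ring

lemma ones_ge {K n : ℕ} {p D : ℝ} (hD : 0 < D) (hn : 0 < n)
    (h1 : 2 * (3 : ℝ) ^ K ≤ 2 ^ K * (Sn^[K] n : ℕ))
    (h2 : Real.exp (p * K * Real.log 3) * n ≤ D * (2 ^ K * (Sn^[K] n : ℕ))) :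
    p * K - Real.log (2 * D) / Real.log 3 ≤ ones (wd 1 K n) := by
  have hn0 : (0 : ℝ) < n := by exact_mod_cast hn
  have h3 := Sn_eq K n
  have h4 : ((cw (wd 1 K n) : ℕ) : ℝ) ≤ 3 ^ K := by
    have := cw_le (wd 1 K n)
    rw [wd_length] at this
    exact_mod_cast this
  set o := ones (wd 1 K n) with ho
  set Y : ℝ := 2 ^ K * (Sn^[K] n : ℕ) with hY
  have h5 : Y ≤ 2 * ((3 : ℝ) ^ o * n) := by linarith
  have h6 : Real.exp (p * K * Real.log 3) * n ≤ (2 * D * 3 ^ o) * n := by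
    calc Real.exp (p * K * Real.log 3) * n ≤ D * Y := h2
      _ ≤ D * (2 * ((3 : ℝ) ^ o * n)) := mul_le_mul_of_nonneg_left h5 hD.le
      _ = _ := by ring
  have h7 := le_of_mul_le_mul_right h6 hn0
  have h8 := Real.log_le_log (Real.exp_pos _) h7
  rw [Real.log_exp, Real.log_mul (by positivity) (by positivity), Real.log_pow] at h8
  have h9 : p * K - Real.log (2 * D) / Real.log 3 = (p * K * Real.log 3 - Real.log (2 * D)) / Real.log 3 := by
    have := log3_pos.ne'
    field_simp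
  rw [h9, div_le_iff₀ log3_pos]
  linarith

lemma ones_le' {K n : ℕ} {p : ℝ} (hn : 0 < n)
    (h2 : 2 ^ K * (Sn^[K] n : ℕ) ≤ Real.exp (p * K * Real.log 3) * n) :
    (ones (wd 1 K n) : ℝ) ≤ p * K := by
  have hn0 : (0 : ℝ) < n := by exact_mod_cast hn
  have h3 := Sn_eq K n
  have h4 : (0 : ℝ) ≤ ((cw (wd 1 K n) : ℕ) : ℝ) := Nat.cast_nonneg _
  set o := ones (wd 1 K n) with ho
  have h5 : (3 : ℝ) ^ o * n ≤ Real.exp (p * K * Real.log 3) * n := by linarith
  have h6 := le_of_mul_le_mul_right h5 hn0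
  have h8 := Real.log_le_log (by positivity) h6
  rw [Real.log_exp, Real.log_pow] at h8
  exact le_of_mul_le_mul_right h8 log3_pos

lemma kap_le' : kap ≤ 16 / 25 := by
  unfold kap
  rw [div_le_iff₀ log3_pos]
  have h1 : Real.log ((2 : ℝ) ^ 25) ≤ Real.log ((3 : ℝ) ^ 16) :=
    Real.log_le_log (by norm_num) (by norm_num)
  rw [Real.log_pow, Real.log_pow] at h1
  push_cast at h1
  linarith

lemma lam_le' : lam ≤ Real.log 3 := by
  unfold lam
  have h1 := kap_pos
  have h2 := kap_le'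
  have h3 : Real.log kap ≤ Real.log (3 * (1 - kap)) := Real.log_le_log h1 (by linarith)
  rw [Real.log_mul (by norm_num) (by linarith)] at h3
  linarith

/-- the exponent of the dyadic scale -/
lemma exists_W {X : ℝ} (hX : 1 ≤ X) : ∃ W : ℕ, X ≤ 2 ^ W ∧ (W : ℝ) * Real.log 2 ≤ Real.log X + Real.log 2 ∧
    Real.logb 2 X ≤ W := by
  have h2 : 0 < Real.log 2 := Real.log_pos (by norm_num)
  have h0 : 0 ≤ Real.logb 2 X := Real.logb_nonneg (by norm_num) hX
  refine ⟨⌈Real.logb 2 X⌉₊, ?_, ?_, Nat.le_ceil _⟩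
  · have h1 := Nat.le_ceil (Real.logb 2 X)
    have h3 : X = (2 : ℝ) ^ Real.logb 2 X := (Real.rpow_logb (by norm_num) (by norm_num) (by linarith)).symm
    calc X = (2 : ℝ) ^ Real.logb 2 X := h3
      _ ≤ (2 : ℝ) ^ ((⌈Real.logb 2 X⌉₊ : ℕ) : ℝ) := Real.rpow_le_rpow_of_exponent_le (by norm_num) h1
      _ = _ := Real.rpow_natCast _ _
  · have h1 := Nat.ceil_lt_add_one h0
    have h3 : Real.logb 2 X * Real.log 2 = Real.log X := by
      unfold Real.logb; field_simp
    nlinarith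

end Pool.Agent.TH930.HW
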