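import Pool.Agent.H547R3.Sub.Thm

/-! A strong form of the theorem of Ridout. -/

set_option autoImplicit false

namespace Pool.Agent.TH930.HW

open Finset Pool.Agent.H393R2 Pool.Agent.H547R3.Sub

/-- Ridout: no integers `X`, `D` with `p ^ L ∣ X`, `q ^ K ∣ X + D` and `|X D|` much smaller than
`p ^ L q ^ K`. -/
theorem ridout {p q : ℕ} [Fact p.Prime] [Fact q.Prime] (hpq : p ≠ q) {δ : ℝ} (hδ : 0 < δ) :
    ∃ N0 : ℕ, ∀ N : ℕ, N0 ≤ N → ∀ L K : ℕ, δ * L ≤ N → δ * K ≤ N → ∀ X D : ℤ, X ≠ 0 → D ≠ 0 →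
      (p : ℤ) ^ L ∣ X → (q : ℤ) ^ K ∣ X + D →
      |(X : ℝ)| * |(D : ℝ)| ≤ (p : ℝ) ^ L * (q : ℝ) ^ K * Real.exp (-(δ * N)) →
      |(D : ℝ)| ≤ (p : ℝ) ^ L * Real.exp (-(δ * N)) → False := by
  by_contra hcon
  push Not at hcon
  have hp : p.Prime := Fact.out
  have hq : q.Prime := Fact.out
  have hp0 : (0 : ℝ) < p := by exact_mod_cast hp.pos
  have hq0 : (0 : ℝ) < q := by exact_mod_cast hq.pos
  have hlogp : 0 < Real.log p := Real.log_pos (by exact_mod_cast hp.one_lt)
  have hlogq : 0 < Real.log q := Real.log_pos (by exact_mod_cast hq.one_lt)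
  have hch := fun t : ℕ => hcon (t + 1)
  choose N hN L K hL hK X D hX hD hXp hXq hXD hDp using hch
  have hN1 : ∀ t, (1 : ℝ) ≤ N t := by
    intro t
    have := hN t
    have h1 : 1 ≤ N t := by omega
    exact_mod_cast h1
  set c : ℝ := (Real.log p + Real.log q) / δ + 1 / δ + 1 with hc
  have hc1 : 1 ≤ c := by
    have : 0 < (Real.log p + Real.log q) / δ := by positivity
    have : 0 < 1 / δ := by positivity
    rw [hc]; linarith
  have hXR : ∀ t, (1 : ℝ) ≤ |(X t : ℝ)| := by
    intro t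
    have : (1 : ℤ) ≤ |X t| := Int.one_le_abs (hX t)
    exact_mod_cast this
  have hDR : ∀ t, (1 : ℝ) ≤ |(D t : ℝ)| := by
    intro t
    have : (1 : ℤ) ≤ |D t| := Int.one_le_abs (hD t)
    exact_mod_cast this
  have hpq0 : ∀ t, (0 : ℝ) < (p : ℝ) ^ L t * (q : ℝ) ^ K t := fun t => by positivity
  have hlogpq : ∀ t, Real.log ((p : ℝ) ^ L t * (q : ℝ) ^ K t) = L t * Real.log p + K t * Real.log q := by
    intro t
    rw [Real.log_mul (by positivity) (by positivity), Real.log_pow, Real.log_pow]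
  have hLle : ∀ t, (L t : ℝ) ≤ N t / δ := fun t => by
    rw [le_div_iff₀ hδ, mul_comm]; exact hL t
  have hKle : ∀ t, (K t : ℝ) ≤ N t / δ := fun t => by
    rw [le_div_iff₀ hδ, mul_comm]; exact hK t
  have hNc : ∀ t, (Real.log p + Real.log q) / δ * N t ≤ c * N t := by
    intro t
    apply mul_le_mul_of_nonneg_right _ (by have := hN1 t; linarith)
    have : 0 < 1 / δ := by positivity
    rw [hc]; linarith
  have hlogle : ∀ t, L t * Real.log p + K t * Real.log q ≤ c * N t := by
    intro t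
    refine le_trans ?_ (hNc t)
    have h1 : (L t : ℝ) * Real.log p ≤ N t / δ * Real.log p :=
      mul_le_mul_of_nonneg_right (hLle t) hlogp.le
    have h2 : (K t : ℝ) * Real.log q ≤ N t / δ * Real.log q :=
      mul_le_mul_of_nonneg_right (hKle t) hlogq.le
    calc L t * Real.log p + K t * Real.log q ≤ N t / δ * Real.log p + N t / δ * Real.log q :=
          add_le_add h1 h2
      _ = _ := by ring
  have hexp1 : ∀ t, Real.exp (-(δ * N t)) ≤ 1 := by
    intro t
    rw [Real.exp_le_one_iff]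
    have := hN1 t
    have : 0 < δ * N t := by positivity
    linarith
  have hXle : ∀ t, |(X t : ℝ)| ≤ (p : ℝ) ^ L t * (q : ℝ) ^ K t := by
    intro t
    have h1 := hXD t
    have h2 : |(X t : ℝ)| * 1 ≤ |(X t : ℝ)| * |(D t : ℝ)| :=
      mul_le_mul_of_nonneg_left (hDR t) (abs_nonneg _)
    have h3 : (p : ℝ) ^ L t * (q : ℝ) ^ K t * Real.exp (-(δ * N t)) ≤ (p : ℝ) ^ L t * (q : ℝ) ^ K t * 1 :=
      mul_le_mul_of_nonneg_left (hexp1 t) (hpq0 t).le
    linarith
  have hDle : ∀ t, |(D t : ℝ)| ≤ (p : ℝ) ^ L t * (q : ℝ) ^ K t := by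
    intro t
    have h1 := hXD t
    have h2 : 1 * |(D t : ℝ)| ≤ |(X t : ℝ)| * |(D t : ℝ)| :=
      mul_le_mul_of_nonneg_right (hXR t) (abs_nonneg _)
    have h3 : (p : ℝ) ^ L t * (q : ℝ) ^ K t * Real.exp (-(δ * N t)) ≤ (p : ℝ) ^ L t * (q : ℝ) ^ K t * 1 :=
      mul_le_mul_of_nonneg_left (hexp1 t) (hpq0 t).le
    linarith
  have hg : ∀ t, 0 < (Int.gcd (X t) (D t) : ℤ) := by
    intro t
    have : 0 < Int.gcd (X t) (D t) := Int.gcd_pos_of_ne_zero_left _ (hX t)
    exact_mod_cast this
  have hgX : ∀ t, (Int.gcd (X t) (D t) : ℤ) ∣ X t := fun t => Int.gcd_dvd_left _ _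
  have hgD : ∀ t, (Int.gcd (X t) (D t) : ℤ) ∣ D t := fun t => Int.gcd_dvd_right _ _
  refine core2 auxPolyStmt rothStmt 1 le_rfl (p := p) (q := q) hpq 1 0 1 (by decide) (by decide) c δ hc1 hδ
    (fun t => (N t : ℝ)) ?_ (fun t => by have := hN1 t; linarith) (fun _ _ => 0) (fun _ _ => 0)
    (fun _ => rfl) (fun _ => rfl) L K (fun _ _ => Nat.zero_le _) (fun _ _ => Nat.zero_le _) ?_ ?_
    (fun t => ![D t, X t]) (fun t => ![|(X t : ℝ)| / ((p : ℝ) ^ L t * (q : ℝ) ^ K t), |(D t : ℝ)|])
    ?_ ?_ ?_ (fun t => fun _ => ![X t, -D t]) ?_ ?_ ?_ ?_ ?_ ?_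
    (fun t => X t / (Int.gcd (X t) (D t) : ℤ)) (fun t => -(D t / (Int.gcd (X t) (D t) : ℤ))) ?_ ?_ ?_ ?_
  · apply tendsto_natCast_atTop_atTop.comp
    apply Filter.tendsto_atTop_mono (f := fun t : ℕ => t) _ Filter.tendsto_id
    intro t
    have := hN t
    omega
  · intro t
    have h1 := hlogle t
    have h2 : 0 ≤ (K t : ℝ) * Real.log q := by positivity
    linarith
  · intro t
    have h1 := hlogle t
    have h2 : 0 ≤ (L t : ℝ) * Real.log p := by positivity
    linarith
  · intro t l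
    fin_cases l
    · simp only [Fin.zero_eta, Matrix.cons_val_zero]
      have := hXR t
      positivity
    · simp only [Fin.mk_one, Matrix.cons_val_one, Matrix.cons_val_fin_one]
      have := hDR t
      linarith
  · intro t l
    have hx1 := hXR t
    have hd1 := hDR t
    have lx0 : 0 ≤ Real.log |(X t : ℝ)| := Real.log_nonneg hx1
    have ld0 : 0 ≤ Real.log |(D t : ℝ)| := Real.log_nonneg hd1
    have lx1 : Real.log |(X t : ℝ)| ≤ L t * Real.log p + K t * Real.log q := by
      rw [← hlogpq t]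
      exact Real.log_le_log (by linarith) (hXle t)
    have ld1 : Real.log |(D t : ℝ)| ≤ L t * Real.log p + K t * Real.log q := by
      rw [← hlogpq t]
      exact Real.log_le_log (by linarith) (hDle t)
    have h1 := hlogle t
    fin_cases l
    · simp only [Fin.zero_eta, Matrix.cons_val_zero]
      rw [Real.log_div (by linarith) (hpq0 t).ne', hlogpq t, abs_le]
      constructor <;> linarith
    · simp only [Fin.mk_one, Matrix.cons_val_one, Matrix.cons_val_fin_one]
      rw [abs_le]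
      constructor <;> linarith
  · intro t
    have hx1 := hXR t
    have hd1 := hDR t
    rw [Fin.sum_univ_two]
    simp only [Matrix.cons_val_zero, Matrix.cons_val_one, Matrix.cons_val_fin_one]
    rw [Real.log_div (by linarith) (hpq0 t).ne']
    have h1 := Real.log_le_log (by positivity) (hXD t)
    rw [Real.log_mul (by linarith) (by linarith), Real.log_mul (hpq0 t).ne' (Real.exp_pos _).ne',
      Real.log_exp] at h1
    linarith
  · intro t
    rw [linearIndependent_unique_iff]
    intro h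
    have := congrFun h 0
    simp only [Matrix.cons_val_zero, Pi.zero_apply] at this
    exact hX t this
  · intro t i
    rw [Fin.sum_univ_two]
    simp only [Matrix.cons_val_zero, Matrix.cons_val_one, Matrix.cons_val_fin_one]
    ring
  · intro t i l hl
    fin_cases l
    · simpa using hXp t
    · exact absurd rfl hl
  · intro t i l hl
    fin_cases l
    · simpa using hXq t
    · exact absurd rfl hl
  · intro t i l
    fin_cases l
    · simp only [Fin.zero_eta, Matrix.cons_val_zero]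
      rw [if_neg (by decide), div_mul_cancel₀ _ (hpq0 t).ne']
    · simp only [Fin.mk_one, Matrix.cons_val_one, Matrix.cons_val_fin_one]
      rw [if_pos trivial, mul_one]
      push_cast
      rw [abs_neg]
  · intro t
    simpa using hD t
  · intro t
    rw [IsCoprime.neg_right_iff]
    have h1 : IsCoprime (X t / (Int.gcd (X t) (D t) : ℤ)) (D t / (Int.gcd (X t) (D t) : ℤ)) := by
      rw [Int.isCoprime_iff_gcd_eq_one]
      exact Int.gcd_ediv_gcd_ediv_gcd (by exact_mod_cast hg t)
    exact h1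
  · intro t
    simp only [Matrix.cons_val_zero, Matrix.cons_val_one, Matrix.cons_val_fin_one, pow_zero, mul_one]
    obtain ⟨a, ha⟩ := hgX t
    obtain ⟨b, hb⟩ := hgD t
    set g : ℤ := (Int.gcd (X t) (D t) : ℤ) with hgdef
    have hg0 : g ≠ 0 := (hg t).ne'
    have e1 : X t / g = a := by rw [ha]; exact Int.mul_ediv_cancel_left _ hg0
    have e2 : D t / g = b := by rw [hb]; exact Int.mul_ediv_cancel_left _ hg0
    rw [e1, e2, ha, hb]
    ring
  · intro t h
    have h1 : D t / (Int.gcd (X t) (D t) : ℤ) = 0 := by linarith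
    have h2 := Int.ediv_mul_cancel (hgD t)
    rw [h1, zero_mul] at h2
    exact hD t h2.symm
  · intro t
    have h1 : Real.exp (δ * N t) ≤ |((X t / (Int.gcd (X t) (D t) : ℤ) : ℤ) : ℝ)| := by
      set g : ℤ := (Int.gcd (X t) (D t) : ℤ) with hgdef
      have hg0 : 0 < g := hg t
      have hgR : (0 : ℝ) < g := by exact_mod_cast hg0
      have h2 : (g : ℝ) ≤ |(D t : ℝ)| := by
        have : g ≤ |D t| := Int.le_of_dvd (abs_pos.2 (hD t)) ((dvd_abs _ _).2 (hgD t))
        exact_mod_cast this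
      have h3 : (p : ℝ) ^ L t ≤ |(X t : ℝ)| := by
        have : (p : ℤ) ^ L t ≤ |X t| := Int.le_of_dvd (abs_pos.2 (hX t)) ((dvd_abs _ _).2 (hXp t))
        exact_mod_cast this
      have h4 : ((X t / g : ℤ) : ℝ) * g = X t := by
        exact_mod_cast Int.ediv_mul_cancel (hgX t)
      have h5 : |((X t / g : ℤ) : ℝ)| * g = |(X t : ℝ)| := by
        rw [← h4, abs_mul, abs_of_pos hgR]
      have h6 : (g : ℝ) ≤ (p : ℝ) ^ L t * Real.exp (-(δ * N t)) := h2.trans (hDp t).1
      have h7 : Real.exp (δ * N t) * g ≤ |((X t / g : ℤ) : ℝ)| * g := by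
        rw [h5]
        refine le_trans ?_ h3
        calc Real.exp (δ * N t) * g ≤ Real.exp (δ * N t) * ((p : ℝ) ^ L t * Real.exp (-(δ * N t))) :=
              mul_le_mul_of_nonneg_left h6 (Real.exp_pos _).le
          _ = (p : ℝ) ^ L t * (Real.exp (δ * N t) * Real.exp (-(δ * N t))) := by ring
          _ = _ := by rw [← Real.exp_add, add_neg_cancel, Real.exp_zero, mul_one]
      exact le_of_mul_le_mul_right h7 hgR
    have h2 : (N t : ℝ) / c ≤ δ * N t := by
      rw [div_le_iff₀ (by linarith)]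
      have h3 : 1 ≤ δ * c := by
        have h4 : δ * (1 / δ) = 1 := by field_simp
        have h5 : 0 < (Real.log p + Real.log q) / δ := by positivity
        rw [hc]
        nlinarith
      have h6 := hN1 t
      nlinarith
    refine h2.trans ?_
    rw [Real.le_log_iff_exp_le (lt_max_of_lt_left (lt_of_lt_of_le (Real.exp_pos _) h1))]
    exact h1.trans (le_max_left _ _)

end Pool.Agent.TH930.HW
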