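import Pool.Agent.TH930.HW.Nat
import Pool.Agent.TH930.PS.Three

/-! Power saving for the `3x+k` maps with an explicit exponent beyond the entropy barrier. -/

set_option autoImplicit false

namespace Pool.Agent.TH930.HW

open Finset Filter Topology Pool.Agent.H499R2.ND Pool.Agent.H828R3.GP
open Pool.Agent.H319R3.GC (Adm Tm PP)
open Pool.Agent.H319R2 (beta beta_lt beta_gt)
open Pool.Agent.TH930.EBQ Pool.Agent.TH930.PS

/-- the exponent of the stuck sets -/
noncomputable def eta (τ : ℝ) : ℝ := beta - τ * (1 - beta) + Real.exp (-(1 / (10000 * τ)))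

/-- THE BOUND FOR THE STUCK SETS, explicit exponent -/
theorem card_Sj_sharp {τ : ℝ} (hτ0 : 0 < τ) (hτ1 : τ ≤ 1 / 1000000) {k : ℤ} (hk : Odd k) :
    ∃ A : ℝ, 0 ≤ A ∧
    ∀ i : ℕ, 1 ≤ i → ((Sj 2 m3 (r3 k) τ i).card : ℝ) ≤ A * (((2 : ℕ) : ℝ) ^ eta τ) ^ i := by
  classical
  obtain ⟨C, hC, h⟩ := chern (δ := 9 / 25) (τ := τ) (by norm_num) (by norm_num) hτ0 (by linarith)
  set E : ℝ := Real.exp (-(1 / (10000 * τ))) with hE
  have hE0 : 0 < E := Real.exp_pos _
  have hEE : Real.exp (-((9 / 25) / (3000 * τ))) ≤ E := by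
    rw [hE]
    apply Real.exp_le_exp.2
    have : 1 / (10000 * τ) ≤ (9 / 25) / (3000 * τ) := by
      rw [div_le_div_iff₀ (by positivity) (by positivity)]
      nlinarith
    linarith
  have hH1 := beta_gt
  have hH2 := beta_lt
  have hl2 := Real.log_two_lt_d9
  have hl2' := Real.log_two_gt_d9
  have hl0 : 0 < Real.log 2 := log2_pos
  have hη0 : 0 ≤ eta τ := by
    unfold eta
    have : τ * (1 - beta) ≤ 1 / 1000000 * 1 := mul_le_mul hτ1 (by linarith) (by linarith) (by norm_num)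
    rw [← hE]
    linarith
  have t1 : Tendsto (fun i : ℕ => τ / 4 * (i : ℝ)) atTop atTop :=
    Tendsto.const_mul_atTop (by positivity) tendsto_natCast_atTop_atTop
  have t2 : Tendsto (fun i : ℕ => Real.exp (τ / 4 * (i : ℝ))) atTop atTop :=
    Real.tendsto_exp_atTop.comp t1
  have e1 : ∀ᶠ i : ℕ in atTop, |(k : ℝ)| ≤ Real.exp (τ / 4 * (i : ℝ)) :=
    t2.eventually_ge_atTop _
  have e2 : ∀ᶠ i : ℕ in atTop, 16 * (i : ℝ) * |(k : ℝ)| ≤ (2 : ℝ) ^ i := by
    have h1 := tendsto_pow_const_div_const_pow_of_one_lt 1 (show (1 : ℝ) < 2 by norm_num)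
    have h2 := h1.eventually_le_const (show (0 : ℝ) < 1 / (16 * (|(k : ℝ)| + 1)) by positivity)
    filter_upwards [h2] with i hi
    rw [div_le_div_iff₀ (by positivity) (by positivity), pow_one] at hi
    have : (0 : ℝ) ≤ i := Nat.cast_nonneg i
    nlinarith
  obtain ⟨i0, hi0⟩ := eventually_atTop.1 (e1.and e2)
  have h2η : (1 : ℝ) ≤ 2 ^ eta τ := Real.one_le_rpow (by norm_num) hη0
  refine ⟨max (8 * C) (3 * 2 ^ i0), le_max_of_le_left (by positivity), ?_⟩
  intro i hi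
  push_cast
  rcases lt_or_ge i i0 with hsm | hbig
  · have h1 : (Sj 2 m3 (r3 k) τ i).card ≤ 3 * 2 ^ i := by
      have h2 : Sj 2 m3 (r3 k) τ i ⊆ Icc (-(((2 : ℕ) : ℤ)) ^ i) ((((2 : ℕ) : ℤ)) ^ i) := by
        unfold Sj
        exact filter_subset _ _
      refine (card_le_card h2).trans ?_
      rw [Int.card_Icc]
      push_cast
      have : (1 : ℤ) ≤ 2 ^ i := one_le_pow₀ (by norm_num)
      have h5 : ((3 * 2 ^ i : ℕ) : ℤ) = 3 * 2 ^ i := by push_cast; rfl
      omega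
    have h2 : 3 * 2 ^ i ≤ 3 * 2 ^ i0 := Nat.mul_le_mul_left 3 (Nat.pow_le_pow_right (by norm_num) hsm.le)
    have h3 : ((Sj 2 m3 (r3 k) τ i).card : ℝ) ≤ 3 * 2 ^ i0 := by exact_mod_cast h1.trans h2
    calc ((Sj 2 m3 (r3 k) τ i).card : ℝ) ≤ 3 * 2 ^ i0 * 1 := by rw [mul_one]; exact h3
      _ ≤ max (8 * C) (3 * 2 ^ i0) * ((2 : ℝ) ^ eta τ) ^ i :=
          mul_le_mul (le_max_right _ _) (one_le_pow₀ h2η) (by norm_num)
            (le_max_of_le_left (by positivity))
  · obtain ⟨h1, h2⟩ := hi0 i hbig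
    have hin : (0 : ℝ) ≤ i := Nat.cast_nonneg i
    set K : ℕ := i + ⌊τ * (i : ℝ)⌋₊ with hK
    have hfl : (⌊τ * (i : ℝ)⌋₊ : ℝ) ≤ τ * i := Nat.floor_le (by positivity)
    have hfl2 : τ * (i : ℝ) < ⌊τ * (i : ℝ)⌋₊ + 1 := Nat.lt_floor_add_one _
    have hKR : (K : ℝ) = i + ⌊τ * (i : ℝ)⌋₊ := by rw [hK]; push_cast; rfl
    have h3 := h k hk i h1 K (by rw [hKR]; linarith) kap
      (by linarith [kap_gt_half]) (by linarith [kap_le']) (Real.log 4) 0
      (Sj 2 m3 (r3 k) τ i) (by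
        intro x hx
        unfold Sj at hx
        rw [mem_filter, mem_Icc] at hx
        push_cast at hx
        obtain ⟨⟨hx1, hx2⟩, hx3, hx4⟩ := hx
        refine ⟨by rw [sub_zero]; exact abs_le.2 ⟨hx1, hx2⟩, ?_⟩
        rw [Tm3] at hx4
        have h4 := stay_mult hk hi (n := K) (by
          have hj2 : (K : ℝ) ≤ 2 * i := by
            have : τ * (i : ℝ) ≤ 1 * i := mul_le_mul_of_nonneg_right (by linarith) hin
            linarith
          have e : (2 : ℝ) ^ i = 2 * (2 : ℝ) ^ (i - 1) := by rw [← pow_succ']; congr 1; omega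
          have h5 : (K : ℝ) * |(k : ℝ)| ≤ 2 * i * |(k : ℝ)| :=
            mul_le_mul_of_nonneg_right hj2 (abs_nonneg _)
          rw [e] at h2
          linarith) hx3.le hx4
        have h5 := dev_ge (Q := 4) (by norm_num) h4
        have hlam0 := lam_pos
        have hlam1 := lam_le'
        have h6 : -(Real.log 4 / Real.log 3) * lam ≤ ((ones (wd k K x) : ℝ) - kap * K) * lam :=
          mul_le_mul_of_nonneg_right (by exact_mod_cast h5) hlam0.le
        have h7 : Real.log 4 / Real.log 3 * lam ≤ Real.log 4 := by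
          rw [div_mul_eq_mul_div, div_le_iff₀ log3_pos]
          exact mul_le_mul_of_nonneg_left hlam1 (Real.log_nonneg (by norm_num))
        have h8 : lam = Real.log kap - Real.log (1 - kap) := rfl
        rw [← h8]
        linarith)
    refine h3.trans ?_
    have e4 : Real.exp (Real.log 4) = 4 := Real.exp_log (by norm_num)
    have eH : Real.binEntropy kap = beta * Real.log 2 := by
      rw [beta_eq, div_mul_cancel₀ _ hl0.ne']; rfl
    rw [e4, eH]
    have h4 : Real.exp (i * Real.log 2 - K * (Real.log 2 - beta * Real.log 2) +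
        Real.exp (-((9 / 25) / (3000 * τ))) / 50 * i) ≤ 2 * ((2 : ℝ) ^ eta τ) ^ i := by
      have e2 : (2 : ℝ) = Real.exp (Real.log 2) := (Real.exp_log (by norm_num)).symm
      have e5 : 2 * ((2 : ℝ) ^ eta τ) ^ i = Real.exp (Real.log 2 + Real.log 2 * eta τ * i) := by
        rw [← Real.rpow_natCast, ← Real.rpow_mul (by norm_num), Real.rpow_def_of_pos (by norm_num),
          Real.exp_add, ← e2]
        congr 2; ring
      rw [e5]
      apply Real.exp_le_exp.2
      unfold eta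
      rw [← hE, hKR]
      have h6 : Real.exp (-((9 / 25) / (3000 * τ))) / 50 * i ≤ E / 50 * i :=
        mul_le_mul_of_nonneg_right (by linarith) hin
      have h7 : (τ * i - 1) * (Real.log 2 - beta * Real.log 2) ≤
          ⌊τ * (i : ℝ)⌋₊ * (Real.log 2 - beta * Real.log 2) := by
        apply mul_le_mul_of_nonneg_right (by linarith)
        nlinarith
      have h8 : E / 50 * i ≤ Real.log 2 * E * i := by
        apply mul_le_mul_of_nonneg_right _ hin
        nlinarith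
      nlinarith
    calc C * 4 * _ ≤ C * 4 * (2 * ((2 : ℝ) ^ eta τ) ^ i) := mul_le_mul_of_nonneg_left h4 (by positivity)
      _ = 8 * C * ((2 : ℝ) ^ eta τ) ^ i := by ring
      _ ≤ _ := mul_le_mul_of_nonneg_right (le_max_left _ _) (by positivity)

/-- POWER SAVING WITH AN EXPLICIT EXPONENT BEYOND THE ENTROPY BARRIER for the `3x+k` maps -/
theorem three_sharp {τ : ℝ} (hτ0 : 0 < τ) (hτ1 : τ ≤ 1 / 1000000) {k : ℤ} (hk : Odd k) {c : ℝ}
    (hc0 : 0 < c) (hc : c < (1 + τ) * (1 - beta) - Real.exp (-(1 / (10000 * τ)))) :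
    ∃ C : ℝ, 0 < C ∧ ∀ X y : ℝ, 1 ≤ X → 1 ≤ y →
    ({x : ℤ | |(x : ℝ)| ≤ X ∧ ∀ n : ℕ, y < |(((Td k)^[n] x : ℤ) : ℝ)|}.ncard : ℝ) ≤ C * X / y ^ c := by
  obtain ⟨A, hA, hSt⟩ := card_Sj_sharp hτ0 hτ1 hk
  have hH1 := beta_gt
  have hH2 := beta_lt
  have hη0 : 0 ≤ eta τ := by
    unfold eta
    have : τ * (1 - beta) ≤ 1 / 1000000 * 1 := mul_le_mul hτ1 (by linarith) (by linarith) (by norm_num)
    have := Real.exp_pos (-(1 / (10000 * τ)))
    linarith
  have he : c < 1 - eta τ := by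
    unfold eta
    linarith
  have h := power_saving' (adm3 hk) hA (by linarith) hη0 (by linarith) hSt (c := c) hc0 he
  rw [Tm3] at h
  exact h

/-- the explicit gain: every exponent `c ≤ 1 - H + 4.8 · 10^(-8)` is admissible -/
theorem three_num {k : ℤ} (hk : Odd k) {c : ℝ}
    (hc0 : 0 < c) (hc : c ≤ 1 - beta + 48 / 1000000000) :
    ∃ C : ℝ, 0 < C ∧ ∀ X y : ℝ, 1 ≤ X → 1 ≤ y →
    ({x : ℤ | |(x : ℝ)| ≤ X ∧ ∀ n : ℕ, y < |(((Td k)^[n] x : ℤ) : ℝ)|}.ncard : ℝ) ≤ C * X / y ^ c := by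
  apply three_sharp (τ := 1 / 1000000) (by norm_num) le_rfl hk hc0
  have hH2 := beta_lt
  have h1 : Real.exp (-(1 / (10000 * (1 / 1000000 : ℝ)))) < 1 / 1000000000 := by
    have h2 : (1 / (10000 * (1 / 1000000 : ℝ))) = 100 := by norm_num
    rw [h2, Real.exp_neg, ← one_div]
    apply one_div_lt_one_div_of_lt (by norm_num)
    have h3 : (2 : ℝ) ^ 100 = Real.exp ((100 : ℕ) * Real.log 2) := pow2_exp 100
    have h4 : Real.exp ((100 : ℕ) * Real.log 2) ≤ Real.exp 100 := by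
      apply Real.exp_le_exp.2
      have := Real.log_two_lt_d9
      push_cast
      linarith
    rw [← h3] at h4
    refine lt_of_lt_of_le ?_ h4
    norm_num
  linarith

end Pool.Agent.TH930.HW
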