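import Pool.Agent.TH930.EBQ.Bad
import Pool.Agent.TH930.HW.Ridout

/-! One window: high moments of the exponential sum. -/

set_option autoImplicit false

namespace Pool.Agent.TH930.HW

open Finset Pool.Agent.TH930.EBQ

/-- the words of length `N` with `r` ones -/
def V (N r : ℕ) : Finset (List Bool) := (words N).filter (fun v => ones v = r)

lemma mem_V {N r : ℕ} {v : List Bool} : v ∈ V N r ↔ v.length = N ∧ ones v = r := by
  unfold V; rw [mem_filter, mem_words]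

/-- the exponential sum of a window -/
noncomputable def E (m r B : ℕ) (a : ℤ) (ξ : ℕ) : ℝ :=
  ‖∑ v ∈ V (2 * m) r, e (3 * ((((ξ : ℤ) * a : ℤ) : ℝ) / 2 ^ B) * cw v)‖

/-- its majorant -/
noncomputable def G (p q : ℝ) (m r B : ℕ) (a : ℤ) (ξ : ℕ) : ℝ :=
  (∑ v ∈ V (2 * m) r, Gw p q ((((ξ : ℤ) * a : ℤ) : ℝ) / 2 ^ B) r v) / (V (2 * m) r).card

lemma V_card_pos {N r : ℕ} (hr : r ≤ N) : 0 < (V N r).card := by
  rw [card_pos]
  refine ⟨List.replicate r true ++ List.replicate (N - r) false, ?_⟩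
  rw [mem_V]
  constructor
  · simp; omega
  · rw [ones_append]
    unfold ones
    rw [List.count_replicate_self, List.count_replicate, if_neg (by decide), Nat.add_zero]

lemma G_nonneg {p q : ℝ} (hp : 0 < p) (hq : 0 < q) (m r B : ℕ) (a : ℤ) (ξ : ℕ) :
    0 ≤ G p q m r B a ξ := by
  unfold G
  apply div_nonneg _ (Nat.cast_nonneg _)
  apply sum_nonneg
  intro v hv
  exact (Gw_pos hp hq m _ r v (mem_filter.1 hv).1).le

lemma E_sq {p q : ℝ} (hp : 0 < p) (hq : 0 < q) {m r : ℕ} (hr : r ≤ 2 * m) (B : ℕ) (a : ℤ) (ξ : ℕ) :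
    E m r B a ξ ^ 2 * (p ^ r * q ^ (2 * m - r)) ≤ (V (2 * m) r).card * G p q m r B a ξ := by
  have h := mid_bound hp hq m r ((((ξ : ℤ) * a : ℤ) : ℝ) / 2 ^ B) hr
  unfold E G
  have hc : (0 : ℝ) < (V (2 * m) r).card := by exact_mod_cast V_card_pos hr
  rw [mul_div_cancel₀ _ hc.ne']
  exact h

/-- the sum over the frequencies, for one word -/
lemma sum_word {p q : ℝ} (hp : 0 < p) (hq : 0 < q) (hpq : p + q = 1)
    {m i B r L R n : ℕ} {a k : ℤ} (hB : B = 2 * m + i) (hk : Odd k) (hRB : R ≤ 2 ^ B)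
    (ha : (2 : ℤ) ^ B ∣ 3 ^ L * a + k)
    (hrid : ∀ x d : ℤ, |x| ≤ 2 ^ i → |d| < R → (2 : ℤ) ^ B ∣ 3 ^ L * x + k * d → x = 0)
    {z : ℝ} (hz0 : 0 < z) (hz1 : z ≤ 1) (hz : (1 - p * q / 32) ^ n ≤ z ^ 2)
    {v : List Bool} (hv : v ∈ words (2 * m)) (ho : ones v = r) :
    ∑ ξ ∈ range R, Gw p q ((((ξ : ℤ) * a : ℤ) : ℝ) / 2 ^ B) r v ^ n * z ≤ (1 + 12 * z) ^ m := by
  classical
  have hpq0 : 0 < p * q := by positivity
  have hpq1 : p * q ≤ 1 := by nlinarith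
  have hρ0 : 0 ≤ 1 - p * q / 32 := by linarith
  set C : ℕ → List ℤ := fun ξ => car ((((ξ : ℤ) * a : ℤ) : ℝ) / 2 ^ B) r v with hC
  have hinj : Set.InjOn C (range R) := by
    intro ξ hξ η hη h
    rw [mem_coe, mem_range] at hξ hη
    obtain ⟨x, hx1, hx2⟩ := car_end hB hv ho h
    have h1 : (2 : ℤ) ^ B ∣ 3 ^ L * x + k * ((ξ : ℤ) - η) := by
      have e1 : 3 ^ L * x + k * ((ξ : ℤ) - η) =
          3 ^ L * (x - ((ξ : ℤ) * a - (η : ℤ) * a)) + ((ξ : ℤ) - η) * (3 ^ L * a + k) := by ring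
      rw [e1]
      exact dvd_add (hx2.mul_left _) (ha.mul_left _)
    have h2 : |(ξ : ℤ) - η| < R := by
      have a1 : (ξ : ℤ) < R := by exact_mod_cast hξ
      have a2 : (η : ℤ) < R := by exact_mod_cast hη
      rw [abs_lt]; constructor <;> omega
    have h3 := hrid x _ hx1 h2 h1
    rw [h3, mul_zero, zero_add] at h1
    have hc : IsCoprime ((2 : ℤ) ^ B) k := by
      apply IsCoprime.pow_left
      obtain ⟨t, rfl⟩ := hk
      exact ⟨-t, 1, by ring⟩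
    have h4 := hc.dvd_of_dvd_mul_left h1
    have h5 : (ξ : ℤ) - η = 0 := by
      apply Int.eq_zero_of_abs_lt_dvd h4
      have : (R : ℤ) ≤ 2 ^ B := by exact_mod_cast hRB
      omega
    omega
  have h1 : ∑ c ∈ (range R).image C, z ^ nz c ≤ (1 + 12 * z) ^ m := by
    rw [← sum_cl]
    apply sum_le_sum_of_subset_of_nonneg
    · intro c hc
      rw [mem_image] at hc
      obtain ⟨ξ, -, rfl⟩ := hc
      exact car_mem m _ r v hv ho
    · intro c _ _; positivity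
  rw [sum_image hinj] at h1
  refine le_trans ?_ h1
  apply sum_le_sum
  intro ξ _
  have h2 := Gw_le hp hq hpq m ((((ξ : ℤ) * a : ℤ) : ℝ) / 2 ^ B) r v hv
  have h3 := (Gw_pos hp hq m ((((ξ : ℤ) * a : ℤ) : ℝ) / 2 ^ B) r v hv).le
  have h4 := (nz_le m ((((ξ : ℤ) * a : ℤ) : ℝ) / 2 ^ B) r v hv ho).1
  set w := wh ((((ξ : ℤ) * a : ℤ) : ℝ) / 2 ^ B) r v with hw
  calc Gw p q ((((ξ : ℤ) * a : ℤ) : ℝ) / 2 ^ B) r v ^ n * z ≤ ((1 - p * q / 32) ^ w) ^ n * z :=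
        mul_le_mul_of_nonneg_right (pow_le_pow_left₀ h3 h2 n) hz0.le
    _ = ((1 - p * q / 32) ^ n) ^ w * z := by rw [← pow_mul, ← pow_mul, mul_comm w n]
    _ ≤ (z ^ 2) ^ w * z := by
        apply mul_le_mul_of_nonneg_right _ hz0.le
        exact pow_le_pow_left₀ (by positivity) hz w
    _ = z ^ (2 * w + 1) := by rw [← pow_mul, pow_succ]
    _ ≤ z ^ nz (C ξ) := pow_le_pow_of_le_one hz0.le hz1 h4

/-- the `n`-th moment of the majorant -/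
lemma sum_G {p q : ℝ} (hp : 0 < p) (hq : 0 < q) (hpq : p + q = 1)
    {m i B r L R n : ℕ} {a k : ℤ} (hB : B = 2 * m + i) (hk : Odd k) (hRB : R ≤ 2 ^ B)
    (ha : (2 : ℤ) ^ B ∣ 3 ^ L * a + k) (hr : r ≤ 2 * m)
    (hrid : ∀ x d : ℤ, |x| ≤ 2 ^ i → |d| < R → (2 : ℤ) ^ B ∣ 3 ^ L * x + k * d → x = 0)
    {z : ℝ} (hz0 : 0 < z) (hz1 : z ≤ 1) (hz : (1 - p * q / 32) ^ n ≤ z ^ 2) (hn : 1 ≤ n) :
    ∑ ξ ∈ range R, G p q m r B a ξ ^ n ≤ (1 + 12 * z) ^ m / z := by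
  have hc : (0 : ℝ) < (V (2 * m) r).card := by exact_mod_cast V_card_pos hr
  obtain ⟨n, rfl⟩ := Nat.exists_eq_add_of_le' hn
  have key : ∀ ξ, G p q m r B a ξ ^ (n + 1) ≤
      (∑ v ∈ V (2 * m) r, Gw p q ((((ξ : ℤ) * a : ℤ) : ℝ) / 2 ^ B) r v ^ (n + 1)) /
        (V (2 * m) r).card := by
    intro ξ
    have h1 := pow_sum_le_card_mul_sum_pow (s := V (2 * m) r)
      (f := fun v => Gw p q ((((ξ : ℤ) * a : ℤ) : ℝ) / 2 ^ B) r v)
      (fun v hv => (Gw_pos hp hq m _ r v (mem_filter.1 hv).1).le) n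
    unfold G
    rw [div_pow, div_le_div_iff₀ (by positivity) hc]
    calc (∑ v ∈ V (2 * m) r, Gw p q ((((ξ : ℤ) * a : ℤ) : ℝ) / 2 ^ B) r v) ^ (n + 1) *
          (V (2 * m) r).card
        ≤ (((V (2 * m) r).card : ℝ) ^ n *
          ∑ v ∈ V (2 * m) r, Gw p q ((((ξ : ℤ) * a : ℤ) : ℝ) / 2 ^ B) r v ^ (n + 1)) *
          (V (2 * m) r).card := mul_le_mul_of_nonneg_right h1 hc.le
      _ = _ := by rw [pow_succ]; ring
  calc ∑ ξ ∈ range R, G p q m r B a ξ ^ (n + 1) ≤ ∑ ξ ∈ range R,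
        (∑ v ∈ V (2 * m) r, Gw p q ((((ξ : ℤ) * a : ℤ) : ℝ) / 2 ^ B) r v ^ (n + 1)) /
        (V (2 * m) r).card := sum_le_sum fun ξ _ => key ξ
    _ = (∑ v ∈ V (2 * m) r, ∑ ξ ∈ range R,
        Gw p q ((((ξ : ℤ) * a : ℤ) : ℝ) / 2 ^ B) r v ^ (n + 1)) / (V (2 * m) r).card := by
        rw [← sum_div, sum_comm]
    _ ≤ (∑ v ∈ V (2 * m) r, (1 + 12 * z) ^ m / z) / (V (2 * m) r).card := by
        apply div_le_div_of_nonneg_right _ hc.le
        apply sum_le_sum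
        intro v hv
        rw [le_div_iff₀ hz0, sum_mul]
        exact sum_word hp hq hpq hB hk hRB ha hrid hz0 hz1 hz (mem_filter.1 hv).1 (mem_filter.1 hv).2
    _ = (1 + 12 * z) ^ m / z := by
        rw [sum_const, nsmul_eq_mul, mul_div_assoc, mul_comm, div_mul_cancel₀ _ hc.ne']

end Pool.Agent.TH930.HW
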